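import Pool.Agent.H302R5.Weak2
import Pool.Agent.H302R5.Push
import Pool.Agent.H302R6.Orbit
import Pool.Agent.H302R6.Prod
import Pool.Agent.H302R7.Const
import Pool.Agent.H302R7.Comm

/-!
# Weak Heilbronn functions: solvable normal subgroups and quotients
-/

set_option autoImplicit false
set_option linter.unusedSectionVars false

namespace Pool.Agent.H302R9

open Pool.Agent.H302R2 Pool.Agent.H302R3 Pool.Agent.H302R5 Pool.Agent.H302R6 Pool.Agent.H302R7

universe u

lemma sol_of_hom {G Q : Type*} [Group G] [Group Q] (f : G →* Q) (hk : Group.IsSolvable f.ker)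
    (hQ : Group.IsSolvable Q) : Group.IsSolvable G :=
  Group.isSolvable_of_ker_le_range f.ker.subtype f (by rw [Subgroup.range_subtype])

section

variable {G : Type u} [Group G] [Finite G] {θ : G → ℂ}

lemma _root_.Pool.Agent.H302R3.IsSolHeilbronn.inv_of_eq (hθ : IsSolHeilbronn θ)
    {x : G} (hx : θ x = θ 1) : θ x⁻¹ = θ 1 := by
  have h1 : x⁻¹ = x ^ (orderOf x - 1) := by
    rw [inv_eq_iff_mul_eq_one, ← pow_succ', Nat.sub_add_cancel (orderOf_pos x),
      pow_orderOf_eq_one]
  rw [h1]
  exact hθ.pow_of_eq hx _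

/-- constancy on a coset of a solvable subgroup normalized by `z` -/
lemma const_move' (hθ : IsSolHeilbronn θ) (D : Subgroup G) (hs : Group.IsSolvable D) (z : G)
    (hz : ∀ d ∈ D, z * d * z⁻¹ ∈ D) (hD : ∀ d ∈ D, θ d = θ 1) : ∀ d ∈ D, θ (z * d) = θ z := by
  intro d hd
  set E := Subgroup.normalizer (D : Set G) with hE
  have hDE : D ≤ E := Subgroup.le_normalizer
  have hzE : z ∈ E := by
    have : Finite D := inferInstance
    rw [hE, Subgroup.mem_normalizer_iff]
    have hinj : Function.Injective (fun d : D => (⟨z * d * z⁻¹, hz d d.2⟩ : D)) := by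
      intro a b hab
      have := congrArg Subtype.val hab
      simp only at this
      exact Subtype.ext (mul_left_cancel (mul_right_cancel this))
    have hsurj := Finite.surjective_of_injective hinj
    intro h
    constructor
    · exact hz h
    · intro h1
      obtain ⟨d', hd'⟩ := hsurj ⟨z * h * z⁻¹, h1⟩
      have := congrArg Subtype.val hd'
      simp only at this
      have h2 : (d' : G) = h := mul_left_cancel (mul_right_cancel this)
      rw [← h2]; exact d'.2
  have hn : (D.subgroupOf E).Normal := Subgroup.normal_in_normalizer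
  have hs' : Group.IsSolvable (D.subgroupOf E) :=
    Group.isSolvable_of_isSolvable_injective
      (f := (Subgroup.subgroupOfEquivOfLe hDE).toMonoidHom)
      (Subgroup.subgroupOfEquivOfLe hDE).injective
  let q : E →* E ⧸ D.subgroupOf E := QuotientGroup.mk' _
  let C : Subgroup (E ⧸ D.subgroupOf E) := Subgroup.zpowers (q ⟨z, hzE⟩)
  let H : Subgroup E := C.comap q
  have hDH : D.subgroupOf E ≤ H := by
    intro x hx
    change q x ∈ C
    have : q x = 1 := (QuotientGroup.eq_one_iff x).mpr hx
    rw [this]; exact one_mem C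
  let f : H →* C := q.subgroupComap C
  have hker : ∀ x : H, x ∈ f.ker ↔ (x : E) ∈ D.subgroupOf E := by
    intro x
    rw [MonoidHom.mem_ker, ← Subtype.coe_inj]
    exact QuotientGroup.eq_one_iff (x : E)
  have hks : Group.IsSolvable f.ker := by
    let g : f.ker →* D.subgroupOf E :=
      { toFun := fun x => ⟨((x : H) : E), (hker x).mp x.2⟩
        map_one' := rfl
        map_mul' := fun _ _ => rfl }
    refine Group.isSolvable_of_isSolvable_injective (f := g) ?_
    intro a b hab
    have := congrArg (fun t : D.subgroupOf E => (t : E)) hab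
    exact Subtype.ext (Subtype.ext this)
  have hHs : Group.IsSolvable H := sol_of_hom f hks (sol_of_comm (zpowers_comm _))
  have hH := hθ.comp_sol hHs (E.subtype.comp H.subtype)
  have hzH : (⟨z, hzE⟩ : E) ∈ H := Subgroup.mem_zpowers _
  have hsH : Group.IsSolvable ((D.subgroupOf E).subgroupOf H) :=
    Group.isSolvable_of_isSolvable_injective
      (f := (Subgroup.subgroupOfEquivOfLe hDH).toMonoidHom)
      (Subgroup.subgroupOfEquivOfLe hDH).injective
  have h1 := const_sol hH ((D.subgroupOf E).subgroupOf H) hsH (fun n hn => by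
    simp only [map_one]
    exact hD _ hn) ⟨⟨z * d * z⁻¹, hDE (hz d hd)⟩, hDH (show (⟨z * d * z⁻¹, hDE (hz d hd)⟩ : E) ∈
      D.subgroupOf E from hz d hd)⟩ (hz d hd) ⟨⟨z, hzE⟩, hzH⟩
  have h2 : θ (z * d * z⁻¹ * z) = θ z := h1
  rwa [inv_mul_cancel_right] at h2

lemma const_sol' (hθ : IsSolHeilbronn θ) (N : Subgroup G) [hN : N.Normal]
    (hs : Group.IsSolvable N) (h1 : ∀ n ∈ N, θ n = θ 1) : ∀ n ∈ N, ∀ x : G, θ (n * x) = θ x := by
  intro n hn x
  have h2 : x⁻¹ * n * x ∈ N := by
    have := hN.conj_mem n hn x⁻¹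
    rwa [inv_inv] at this
  have h3 := const_move' hθ N hs x (fun d hd => hN.conj_mem d hd x) h1 _ h2
  rw [← h3]
  congr 1
  group

/-- quotients -/
theorem push_sol {Y : Type u} [Group Y] [Finite Y] [Fintype G] {π : G →* Y}
    (hπ : Function.Surjective π) (hθ : IsSolHeilbronn θ)
    (hc : ∀ n ∈ π.ker, ∀ x, θ (n * x) = θ x) : IsSolHeilbronn (push π θ) where
  conj y c := push_conj π hπ hθ.conj y c
  mult V hV χ := by
    classical
    let S : Set (Subgroup G) := {M | M.map π = V}
    obtain ⟨M, hM⟩ := (Set.toFinite S).exists_minimal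
      ⟨V.comap π, Subgroup.map_comap_eq_self_of_surjective hπ V⟩
    have hMV : M.map π = V := hM.prop
    have hmemV : ∀ m ∈ M, π m ∈ V := fun m hm => hMV ▸ ⟨m, hm, rfl⟩
    let g : M →* V :=
      { toFun := fun m => ⟨π m, hmemV m m.2⟩
        map_one' := Subtype.ext (map_one π)
        map_mul' := fun a b => Subtype.ext (map_mul π _ _) }
    have hg : Function.Surjective g := by
      rintro ⟨v, hv⟩
      rw [← hMV] at hv
      obtain ⟨m, hm, rfl⟩ := hv
      exact ⟨⟨m, hm⟩, rfl⟩
    have hfr : g.ker ≤ frattini M := by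
      refine le_iInf₂ ?_
      intro C hC
      by_contra hcon
      have htop : C ⊔ g.ker = ⊤ := hC.2 _ (by
        refine lt_of_le_of_ne le_sup_left ?_
        intro h
        exact hcon (h ▸ le_sup_right))
      have h1 : C.map M.subtype ∈ S := by
        change (C.map M.subtype).map π = V
        apply le_antisymm
        · rintro _ ⟨_, ⟨c, hc, rfl⟩, rfl⟩
          exact hmemV c c.2
        · intro v hv
          obtain ⟨m, hm⟩ := hg ⟨v, hv⟩
          have h2 : m ∈ C ⊔ g.ker := by rw [htop]; exact Subgroup.mem_top m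
          rw [Subgroup.mem_sup_of_normal_right] at h2
          obtain ⟨c, hc, k, hk, rfl⟩ := h2
          refine ⟨c, ⟨c, hc, rfl⟩, ?_⟩
          have h3 : g (c * k) = g c := by rw [map_mul, MonoidHom.mem_ker.mp hk, mul_one]
          rw [h3] at hm
          exact congrArg Subtype.val hm
      have h2 : M ≤ C.map M.subtype := hM.le_of_le h1 (by
        rintro _ ⟨c, -, rfl⟩
        exact c.2)
      apply hC.1
      rw [Subgroup.eq_top_iff']
      intro m
      obtain ⟨c, hc, hcm⟩ := h2 m.2
      have : c = m := Subtype.ext hcm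
      rwa [← this]
    have hfs : Group.IsSolvable (frattini M) := by
      have := frattini_nilpotent (G := M)
      infer_instance
    have hks : Group.IsSolvable g.ker :=
      Group.isSolvable_of_isSolvable_injective (Subgroup.inclusion_injective hfr)
    have hMs : Group.IsSolvable M := sol_of_hom g hks hV
    have : Fintype M := Fintype.ofFinite _
    have : Fintype V := Fintype.ofFinite _
    obtain ⟨n, hn⟩ := hθ.mult_hom hMs M.subtype (χ.comp g)
    refine ⟨n, ?_⟩
    rw [finsum_eq_sum_of_fintype]
    have h1 := sum_comp_surj g hg (fun v : V => push π θ v * (((χ v)⁻¹ : ℂˣ) : ℂ))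
    have h2 : ∑ m : M, push π θ (g m : Y) * (((χ (g m))⁻¹ : ℂˣ) : ℂ)
        = ∑ m : M, θ (M.subtype m) * ((((χ.comp g) m)⁻¹ : ℂˣ) : ℂ) := by
      refine Finset.sum_congr rfl fun m _ => ?_
      have h3 : push π θ (g m : Y) = θ m := push_mk hc (m : G)
      rw [h3]
      rfl
    rw [h2, hn] at h1
    have h3 : Nat.card M = Nat.card g.ker * Nat.card V := by
      rw [← Nat.card_congr (QuotientGroup.quotientKerEquivOfSurjective g hg).toEquiv, mul_comm]
      exact Subgroup.card_eq_card_quotient_mul_card_subgroup _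
    rw [h3] at h1
    have hk : (Nat.card g.ker : ℂ) ≠ 0 := by exact_mod_cast Nat.card_pos.ne'
    apply mul_left_cancel₀ hk
    rw [← h1]
    push_cast
    ring

end

end Pool.Agent.H302R9
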