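import Pool.Agent.H302R9.Base
import Pool.Agent.H302R7.CaseA
import Pool.Agent.H302R7.CaseB5

/-!
# Weak Heilbronn functions: block translations
-/

set_option autoImplicit false
set_option linter.unusedSectionVars false

namespace Pool.Agent.H302R9

open Pool.Agent.H302R2 Pool.Agent.H302R3 Pool.Agent.H302R5 Pool.Agent.H302R6 Pool.Agent.H302R7
open Equiv Equiv.Perm

universe u

variable {F : Type} [Field F] [Fintype F] [DecidableEq F] {m : ℕ}

theorem block_kernel_gen' {D : Type*} [Group D] [Finite D] {θ : D → ℂ} (hθ : IsSolHeilbronn θ)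
    (hF : 4 ≤ Fintype.card F) (sec : Multiplicative (Fin m → F) →* D)
    (hmono : ∀ (u : Fin m → Fˣ) (σ : Perm (Fin m)) (a : Fin m → F),
      θ (sec (Multiplicative.ofAdd (fun i => ((u i)⁻¹ : Fˣ) * a (σ i))))
        = θ (sec (Multiplicative.ofAdd a))) {r : ℕ} (hr : θ 1 = r)
    (hlt : r < (Fintype.card F - 1) * m) (a : Fin m → F) :
    θ (sec (Multiplicative.ofAdd a)) = θ 1 := by
  classical
  set t : (Fin m → F) → ℂ := fun a => θ (sec (Multiplicative.ofAdd a)) with ht
  -- additive character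
  set e : AddChar F ℂ := AddChar.FiniteField.primitiveChar_to_Complex F with he
  have heprim : e.IsPrimitive := AddChar.FiniteField.primitiveChar_to_Complex_isPrimitive F
  let χ : (Fin m → F) → Multiplicative (Fin m → F) →* ℂˣ := fun y =>
    MonoidHom.toHomUnits
      { toFun := fun a => e (∑ i, y i * Multiplicative.toAdd a i)
        map_one' := by simp
        map_mul' := fun a b => by
          rw [← AddChar.map_add_eq_mul, ← Finset.sum_add_distrib]
          congr 1
          refine Finset.sum_congr rfl fun i _ => ?_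
          rw [toAdd_mul, Pi.add_apply, mul_add] }
  have hχ : ∀ y a, ((χ y (Multiplicative.ofAdd a) : ℂˣ) : ℂ) = e (∑ i, y i * a i) :=
    fun y a => rfl
  have hm := fun y => hθ.mult_hom (sol_of_comm mul_comm) sec (χ y)
  choose n hn using hm
  have hcardV : (Nat.card (Multiplicative (Fin m → F)) : ℂ) = (Fintype.card F : ℂ) ^ m := by
    rw [Nat.card_eq_fintype_card, Fintype.card_multiplicative, Fintype.card_fun, Fintype.card_fin]
    push_cast; rfl
  have hn' : ∀ y, ∑ a : Fin m → F, t a * e (-∑ i, y i * a i) = n y * (Fintype.card F : ℂ) ^ m := by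
    intro y
    rw [← hcardV, ← hn y, ← Multiplicative.ofAdd.sum_comp]
    refine Finset.sum_congr rfl fun a _ => ?_
    rw [Units.val_inv_eq_inv_val, hχ, AddChar.map_neg_eq_inv]
  have hq : ((Fintype.card F : ℂ) ^ m) ≠ 0 := pow_ne_zero _ (by
    exact_mod_cast Fintype.card_ne_zero)
  -- invariance of n
  have hinv : ∀ y z : Fin m → F, wt y = wt z → n y = n z := by
    intro y z hyz
    obtain ⟨u, σ, huσ⟩ := exists_monomial hyz
    have h1 : ∑ a : Fin m → F, t a * e (-∑ i, y i * a i)
        = ∑ a : Fin m → F, t a * e (-∑ i, z i * a i) := by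
      -- substitution a ↦ (i ↦ (u i)⁻¹ * a (σ i)) in the second sum
      let T : (Fin m → F) ≃ (Fin m → F) :=
        { toFun := fun a i => ((u i)⁻¹ : Fˣ) * a (σ i)
          invFun := fun a i => (u (σ⁻¹ i) : F) * a (σ⁻¹ i)
          left_inv := fun a => by
            ext i
            simp only [perm_mul_inv_apply, Units.mul_inv_cancel_left]
          right_inv := fun a => by
            ext i
            simp only [perm_inv_mul_apply, Units.inv_mul_cancel_left] }
      rw [← T.sum_comp (fun a => t a * e (-∑ i, z i * a i))]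
      refine Finset.sum_congr rfl fun a _ => ?_
      have h2 : t (T a) = t a := hmono u σ a
      have h3 : ∑ i, z i * (T a) i = ∑ i, y i * a i := by
        rw [← Equiv.sum_comp σ (fun i => y i * a i)]
        refine Finset.sum_congr rfl fun i _ => ?_
        change z i * (((u i)⁻¹ : Fˣ) * a (σ i)) = _
        rw [huσ i]
        have : (u i : F) * (((u i)⁻¹ : Fˣ) : F) = 1 := Units.mul_inv _
        calc (u i : F) * y (σ i) * ((((u i)⁻¹ : Fˣ) : F) * a (σ i))
            = ((u i : F) * (((u i)⁻¹ : Fˣ) : F)) * (y (σ i) * a (σ i)) := by ring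
          _ = y (σ i) * a (σ i) := by rw [this, one_mul]
      rw [h2, h3]
    rw [hn', hn'] at h1
    exact_mod_cast mul_right_cancel₀ hq h1
  -- total multiplicity
  have htot : ∑ y, n y = r := by
    have h1 : ∑ y : Fin m → F, ∑ a : Fin m → F, t a * e (-∑ i, y i * a i)
        = (∑ y, (n y : ℂ)) * (Fintype.card F : ℂ) ^ m := by
      rw [Finset.sum_congr rfl (fun y _ => hn' y), Finset.sum_mul]
    rw [Finset.sum_comm] at h1
    have h2 : ∀ a : Fin m → F, ∑ y : Fin m → F, t a * e (-∑ i, y i * a i)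
        = if a = 0 then t 0 * (Fintype.card F : ℂ) ^ m else 0 := by
      intro a
      rw [← Finset.mul_sum]
      have h3 : ∀ y : Fin m → F, e (-∑ i, y i * a i) = ∏ i, e (y i * (-a i)) := by
        intro y
        rw [← Finset.sum_neg_distrib]
        rw [addChar_sum]
        refine Finset.prod_congr rfl fun i _ => by rw [mul_neg]
      rw [Finset.sum_congr rfl (fun y _ => h3 y)]
      have h4 := Finset.prod_univ_sum (fun _ : Fin m => (Finset.univ : Finset F))
        (fun i x => e (x * (-a i)))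
      rw [Fintype.piFinset_univ] at h4
      rw [← h4]
      by_cases ha : a = 0
      · subst ha
        simp
      · rw [if_neg ha]
        obtain ⟨i, hi⟩ := Function.ne_iff.mp ha
        have h5 : ∑ x : F, e (x * (-a i)) = 0 := by
          rw [AddChar.sum_mulShift _ heprim, if_neg (by simpa using hi)]
          simp
        rw [Finset.prod_eq_zero (Finset.mem_univ i) h5, mul_zero]
    rw [Finset.sum_congr rfl (fun a _ => h2 a)] at h1
    simp only [Finset.sum_ite_eq', Finset.mem_univ, if_true] at h1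
    have h6 := mul_right_cancel₀ hq h1
    have h7 : t 0 = r := by
      rw [← hr, ht]
      simp only [ofAdd_zero, map_one]
    rw [h7] at h6
    exact_mod_cast h6.symm
  -- all nontrivial multiplicities vanish
  have hzero : ∀ y : Fin m → F, y ≠ 0 → n y = 0 := by
    intro y hy
    by_contra hcon
    have hwt1 : 1 ≤ wt y := by
      obtain ⟨i, hi⟩ := Function.ne_iff.mp hy
      rw [wt, Nat.one_le_iff_ne_zero, Finset.card_ne_zero]
      exact ⟨i, by simpa using hi⟩
    have hwtm : wt y ≤ m := by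
      rw [wt]
      exact (Finset.card_filter_le _ _).trans (by simp)
    have h1 := card_wt_ge (F := F) (by omega) hwt1 hwtm
    have h2 : (Finset.univ.filter fun z : Fin m → F => wt z = wt y).card ≤ ∑ z, n z := by
      calc (Finset.univ.filter fun z : Fin m → F => wt z = wt y).card
          = ∑ z ∈ Finset.univ.filter (fun z : Fin m → F => wt z = wt y), 1 := by simp
        _ ≤ ∑ z ∈ Finset.univ.filter (fun z : Fin m → F => wt z = wt y), n z := by
            refine Finset.sum_le_sum fun z hz => ?_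
            have := hinv y z (Finset.mem_filter.mp hz).2.symm
            omega
        _ ≤ ∑ z, n z := Finset.sum_le_sum_of_subset (Finset.filter_subset _ _)
    rw [htot] at h2
    omega
  -- conclusion
  have hn0 : (n 0 : ℂ) = r := by
    have : ∑ y, n y = n 0 := Finset.sum_eq_single 0 (fun y _ hy => hzero y hy) (by simp)
    rw [htot] at this
    exact_mod_cast this.symm
  have hsum := hn' 0
  simp only [Pi.zero_apply, zero_mul, Finset.sum_const_zero, neg_zero, AddChar.map_zero_eq_one,
    mul_one] at hsum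
  rw [hn0] at hsum
  have hnn : ∀ b ∈ (Finset.univ : Finset (Fin m → F)), (0 : ℝ) ≤ r - (t b).re := by
    intro b _
    have := (Complex.re_le_norm _).trans (hθ.norm_le (sec (Multiplicative.ofAdd b)))
    rw [hr, Complex.natCast_re] at this
    simp only [ht]; linarith
  have hsum0 : ∑ b : Fin m → F, ((r : ℝ) - (t b).re) = 0 := by
    have h1 := congrArg Complex.re hsum
    rw [Complex.re_sum] at h1
    rw [Finset.sum_sub_distrib, h1, Finset.sum_const, Finset.card_univ, Fintype.card_fun,
      Fintype.card_fin, nsmul_eq_mul]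
    have : ((r : ℂ) * (Fintype.card F : ℂ) ^ m).re = r * (Fintype.card F : ℝ) ^ m := by
      have h8 : ((r : ℂ) * (Fintype.card F : ℂ) ^ m) = ((r * (Fintype.card F : ℝ) ^ m : ℝ) : ℂ) := by
        push_cast; rfl
      rw [h8, Complex.ofReal_re]
    rw [this]
    push_cast; ring
  have h5 := (Finset.sum_eq_zero_iff_of_nonneg hnn).mp hsum0 a (Finset.mem_univ _)
  apply hθ.eq_deg_of_re
  rw [hr, Complex.natCast_re]
  simp only [ht] at h5
  linarith

theorem card_le_of_vanish' {D : Type u} [Group D] [Finite D] {η : D → ℂ} (hη : IsSolHeilbronn η) {r : ℕ}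
    (hr : η 1 = r) (hr0 : r ≠ 0) (Z : Subgroup D) (lam : Z →* ℂˣ)
    (hlam : ∀ (z : Z) (g : D), η (z * g) = ((lam z : ℂˣ) : ℂ) * η g)
    (A : Subgroup D) (hZA : Z ≤ A) (hcA : ∀ a b : A, a * b = b * a)
    (hvan : ∀ a ∈ A, a ∉ Z → η a = 0) : Nat.card A ≤ r * Nat.card Z := by
  classical
  have : Fintype A := Fintype.ofFinite _
  have : Fintype Z := Fintype.ofFinite _
  obtain ⟨s, hs⟩ := (hη.comp_sol (sol_of_comm hcA) A.subtype).comm_multiset hcA
  simp only [Subgroup.coe_subtype] at hs
  have hcard : Multiset.card s = r := by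
    have h1 := hs 1
    rw [Subgroup.coe_one, hr, map_one_sum s 1 (fun ψ _ => map_one ψ)] at h1
    exact_mod_cast h1.symm
  obtain ⟨ψ, hψ⟩ : ∃ ψ, ψ ∈ s := by
    apply Multiset.exists_mem_of_ne_zero
    rintro rfl
    simp at hcard
    exact hr0 hcard.symm
  have hcount : 1 ≤ s.count ψ := Multiset.one_le_count_iff_mem.mpr hψ
  have hAc : (Nat.card A : ℂ) ≠ 0 := by exact_mod_cast Nat.card_pos.ne'
  have hm : ∑ a : A, η a * (((ψ a)⁻¹ : ℂˣ) : ℂ) = (s.count ψ : ℂ) * Nat.card A := by
    have h1 := count_mult s ψ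
    rw [finsum_eq_sum_of_fintype] at h1
    rw [← h1]
    exact Finset.sum_congr rfl fun a _ => by rw [hs]
  have hm0 : ∑ a : A, η a * (((ψ a)⁻¹ : ℂˣ) : ℂ) ≠ 0 := by
    rw [hm]
    refine mul_ne_zero ?_ hAc
    exact_mod_cast (by omega : s.count ψ ≠ 0)
  have hext : ∀ z : Z, ψ ⟨z, hZA z.2⟩ = lam z := by
    intro z
    have h1 : ∑ a : A, η a * (((ψ a)⁻¹ : ℂˣ) : ℂ)
        = ((lam z * (ψ ⟨z, hZA z.2⟩)⁻¹ : ℂˣ) : ℂ) * ∑ a : A, η a * (((ψ a)⁻¹ : ℂˣ) : ℂ) := by
      conv_lhs => rw [← Equiv.sum_comp (Equiv.mulLeft (⟨z, hZA z.2⟩ : A))]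
      rw [Finset.mul_sum]
      refine Finset.sum_congr rfl fun a _ => ?_
      rw [Equiv.coe_mulLeft, Subgroup.coe_mul, map_mul, mul_inv, hlam]
      push_cast
      ring
    have h2 : (1 - ((lam z * (ψ ⟨z, hZA z.2⟩)⁻¹ : ℂˣ) : ℂ)) *
        ∑ a : A, η a * (((ψ a)⁻¹ : ℂˣ) : ℂ) = 0 := by
      rw [sub_mul, one_mul, ← h1, sub_self]
    have h3 := (mul_eq_zero.mp h2).resolve_right hm0
    have h4 : lam z * (ψ ⟨z, hZA z.2⟩)⁻¹ = 1 := Units.ext (sub_eq_zero.mp h3).symm
    exact (mul_inv_eq_one.mp h4).symm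
  have hm2 : ∑ a : A, η a * (((ψ a)⁻¹ : ℂˣ) : ℂ) = (r : ℂ) * Nat.card Z := by
    have h1 : ∑ z : Z, (r : ℂ) = ∑ a : A, η a * (((ψ a)⁻¹ : ℂˣ) : ℂ) := by
      refine Fintype.sum_of_injective (fun z : Z => (⟨z, hZA z.2⟩ : A)) ?_ _ _ ?_ ?_
      · intro a b hab
        exact Subtype.ext (congrArg (fun x : A => (x : D)) hab)
      · intro a ha
        have h2 : (a : D) ∉ Z := fun h => ha ⟨⟨a, h⟩, rfl⟩
        rw [hvan _ a.2 h2, zero_mul]
      · intro z
        rw [hext z]
        have h3 := hlam z 1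
        rw [mul_one, hr] at h3
        change (r : ℂ) = η z * _
        rw [h3, Units.val_inv_eq_inv_val]
        have h4 : ((lam z : ℂˣ) : ℂ) ≠ 0 := (lam z).ne_zero
        field_simp
    rw [← h1, Finset.sum_const, Finset.card_univ, nsmul_eq_mul, ← Nat.card_eq_fintype_card]
    ring
  have hkey : s.count ψ * Nat.card A = r * Nat.card Z := by
    rw [hm] at hm2
    exact_mod_cast hm2
  rw [← hkey]
  exact Nat.le_mul_of_pos_left _ hcount

end Pool.Agent.H302R9
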