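import Pool.Agent.H302R9.Base
import Pool.Agent.H302R7.CaseA

/-!
# Weak Heilbronn functions: case A, commutators, central components
-/

set_option autoImplicit false
set_option linter.unusedSectionVars false

namespace Pool.Agent.H302R9

open Pool.Agent.H302R2 Pool.Agent.H302R3 Pool.Agent.H302R5 Pool.Agent.H302R6 Pool.Agent.H302R7
open Equiv Equiv.Perm

universe u

section

variable {D : Type u} [Group D] [Finite D]

theorem case_a' {r : ℕ} (hr2 : 2 ≤ r) (hperf : commutator D = ⊤) (hch : Chn r (⊤ : Subgroup D))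
    {η : D → ℂ} (hη : IsSolHeilbronn η) {r' : ℕ} (hr' : r' ≤ r) (h1 : η 1 = r') (h0 : r' ≠ 0)
    (Z : Subgroup D) (hZ : Z = Subgroup.center D) (lam : Z →* ℂˣ)
    (hlam : ∀ (z : Z) (g : D), η (z * g) = ((lam z : ℂˣ) : ℂ) * η g)
    (hinj : Function.Injective lam) (U : Subgroup D) [hU : U.Normal]
    (hUZ : ¬ U ≤ Z) (hcomm : ∀ a ∈ U, ∀ b ∈ U, a * b * a⁻¹ * b⁻¹ ∈ Z)
    (hcent : ∀ u ∈ U, (∀ v ∈ U, v * u = u * v) → u ∈ Z) {p : ℕ} (hp : p.Prime)
    (hpow : ∀ u ∈ U, u ^ p ∈ Z) : False := by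
  classical
  have hmem : ∀ {z : D}, z ∈ Z → ∀ g, g * z = z * g := by
    intro z hz g
    rw [hZ] at hz
    exact Subgroup.mem_center_iff.mp hz g
  have hmemW : ∀ z : U, z ∈ Subgroup.center U ↔ (z : D) ∈ Z := by
    intro z
    constructor
    · intro hz
      apply hcent z z.2
      intro v hv
      exact congrArg Subtype.val (Subgroup.mem_center_iff.mp hz ⟨v, hv⟩)
    · intro hz
      rw [Subgroup.mem_center_iff]
      intro v
      exact Subtype.ext (hmem hz v)
  have hcenter : Subgroup.center U = Z.subgroupOf U := by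
    ext z
    rw [hmemW, Subgroup.mem_subgroupOf]
  let j : Subgroup.center U →* Z :=
    { toFun := fun z => ⟨((z : U) : D), (hmemW z).mp z.2⟩
      map_one' := rfl
      map_mul' := fun _ _ => rfl }
  have hj : Function.Injective j := by
    intro a b hab
    exact Subtype.ext (Subtype.ext (congrArg (fun z : Z => (z : D)) hab))
  have hUs : Group.IsSolvable U := by
    refine sol_of_hom (QuotientGroup.mk' (Subgroup.center U)) ?_ (sol_of_comm ?_)
    · rw [QuotientGroup.ker_mk']
      exact sol_of_comm fun a b => Subtype.ext (Subgroup.mem_center_iff.mp b.2 a)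
    · intro a b
      induction a using QuotientGroup.induction_on with | _ a => ?_
      induction b using QuotientGroup.induction_on with | _ b => ?_
      rw [← QuotientGroup.mk_mul, ← QuotientGroup.mk_mul, eq_comm, QuotientGroup.eq_iff_div_mem,
        hmemW, div_eq_mul_inv]
      have h2 := hcomm b b.2 a a.2
      have h3 : ((b * a * (a * b)⁻¹ : U) : D) = b * a * (b : D)⁻¹ * (a : D)⁻¹ := by
        simp only [Subgroup.coe_mul, Subgroup.coe_inv]
        group
      rw [h3]
      exact h2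
  obtain ⟨A, hZA, hA1, hA2⟩ := extra_bound (hη.comp_sol hUs U.subtype) (r := r') h1 h0 (lam.comp j)
    (fun z g => hlam (j z) g) (hinj.comp hj)
    (fun a b => (hmemW _).mpr (hcomm a a.2 b b.2))
  -- `U / Z` is a `p`-group
  have : Fact p.Prime := ⟨hp⟩
  have hpg : IsPGroup p (U ⧸ Subgroup.center U) := by
    intro x
    refine ⟨1, ?_⟩
    induction x using QuotientGroup.induction_on with | _ x => ?_
    rw [pow_one, ← QuotientGroup.mk_pow, QuotientGroup.eq_one_iff, hmemW]
    exact hpow x x.2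
  obtain ⟨e, he⟩ := IsPGroup.iff_card.mp hpg
  have hidx : (Subgroup.center U).index = p ^ e := he
  have hrel : (Subgroup.center U).relIndex A ∣ p ^ e := by
    rw [← hidx]
    exact Subgroup.relIndex_dvd_index_of_le hZA
  obtain ⟨c, -, hc⟩ := (Nat.dvd_prime_pow hp).mp hrel
  have hcA : Nat.card (Subgroup.center U) * p ^ c = Nat.card A := by
    rw [← hc, ← Nat.card_congr (Subgroup.subgroupOfEquivOfLe hZA).toEquiv]
    exact Subgroup.card_mul_index _
  have hcW : Nat.card (Subgroup.center U) * p ^ e = Nat.card U := by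
    rw [← hidx]
    exact Subgroup.card_mul_index _
  have hzpos : 0 < Nat.card (Subgroup.center U) := Nat.card_pos
  have hpc : p ^ c ≤ r := by
    rw [← hcA, mul_comm r'] at hA1
    exact (Nat.le_of_mul_le_mul_left hA1 hzpos).trans hr'
  have hec : e ≤ 2 * c := by
    have h2 : p ^ e ≤ p ^ (2 * c) := by
      rw [← hcA, ← hcW] at hA2
      have h3 : (Nat.card (Subgroup.center U)) ^ 2 * p ^ e
          ≤ (Nat.card (Subgroup.center U)) ^ 2 * p ^ (2 * c) := by
        calc (Nat.card (Subgroup.center U)) ^ 2 * p ^ e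
            = Nat.card (Subgroup.center U) * p ^ e * Nat.card (Subgroup.center U) := by ring
          _ ≤ (Nat.card (Subgroup.center U) * p ^ c) ^ 2 := hA2
          _ = _ := by ring
      exact Nat.le_of_mul_le_mul_left h3 (by positivity)
    exact (Nat.pow_le_pow_iff_right hp.one_lt).mp h2
  have hZn : Z.Normal := by rw [hZ]; infer_instance
  -- the action is nontrivial
  have hC : actKer U Z ≠ ⊤ := by
    intro htop
    apply hUZ
    intro u hu
    have hg : ∀ g : D, g * u * g⁻¹ * u⁻¹ ∈ Z := by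
      intro g
      have : g ∈ actKer U Z := by rw [htop]; exact Subgroup.mem_top g
      exact mem_actKer.mp this u hu
    have hZc : ∀ a b : Z, a * b = b * a := fun a b => Subtype.ext (hmem b.2 a)
    let _ : CommGroup Z := { (inferInstance : Group Z) with mul_comm := hZc }
    let f₀ : D →* Z :=
      { toFun := fun g => ⟨g * u * g⁻¹ * u⁻¹, hg g⟩
        map_one' := by apply Subtype.ext; simp
        map_mul' := by
          intro a b
          apply Subtype.ext
          change a * b * u * (a * b)⁻¹ * u⁻¹ = (a * u * a⁻¹ * u⁻¹) * (b * u * b⁻¹ * u⁻¹)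
          have h2 := hmem (hg b) a
          have h3 := hmem (hg b) (a * u * a⁻¹ * u⁻¹)
          rw [h3]
          have e1 : a * b * u * (a * b)⁻¹ * u⁻¹ = (a * (b * u * b⁻¹ * u⁻¹)) * u * a⁻¹ * u⁻¹ := by
            group
          rw [e1, h2]
          simp only [mul_assoc] }
    rw [hZ, Subgroup.mem_center_iff]
    intro g
    have h4 := hom_trivial hperf f₀ g
    have h5 : g * u * g⁻¹ * u⁻¹ = 1 := congrArg (fun z : Z => (z : D)) h4
    rw [mul_inv_eq_one, mul_inv_eq_iff_eq_mul] at h5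
    exact h5
  obtain ⟨n, hn, hbig⟩ := big_quotient hr2 hperf hch (actKer U Z) hC
  have h2 := card_act_le U Z hp (by rw [← hcenter]; exact he)
  have h3 : (p ^ e) ^ e ≤ p ^ (4 * c ^ 2) := by
    rw [← pow_mul]
    apply Nat.pow_le_pow_right hp.pos
    calc e * e ≤ (2 * c) * (2 * c) := Nat.mul_le_mul hec hec
      _ = 4 * c ^ 2 := by ring
  have h4 := num_ineq hr2 hn hp.two_le hpc
  omega

end

section

variable {G : Type u} [Group G] [Finite G] {θ : G → ℂ}

lemma comm_kernel' (hθ : IsSolHeilbronn θ) {r : ℕ} (hr : θ 1 = r)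
    (hidx : ∀ H : Subgroup G, H.index ≤ r → H = ⊤) (V : Subgroup G) [V.Normal]
    (hV : ∀ a b : V, a * b = b * a) :
    ∀ w ∈ ⁅(⊤ : Subgroup G), V⁆, θ w = θ 1 := by
  classical
  obtain ⟨s, hs⟩ := (hθ.comp_sol (sol_of_comm hV) V.subtype).comm_multiset hV
  simp only [Subgroup.coe_subtype] at hs
  have hcard : Multiset.card s = r := by
    have h1 := hs 1
    rw [Subgroup.coe_one, hr, map_one_sum s 1 (fun ψ _ => map_one ψ)] at h1
    exact_mod_cast h1.symm
  have hst : ∀ ψ ∈ s, stab V ψ = ⊤ := by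
    intro ψ hψ
    apply hidx
    have h1 := orbit_index hθ.conj V s hs ψ
    have h2 : 1 ≤ s.count ψ := Multiset.one_le_count_iff_mem.mpr hψ
    rw [hcard] at h1
    calc (stab V ψ).index = (stab V ψ).index * 1 := (mul_one _).symm
      _ ≤ (stab V ψ).index * s.count ψ := Nat.mul_le_mul_left _ h2
      _ ≤ r := h1
  let K : Subgroup V :=
    { carrier := {v | ∀ ψ ∈ s, ψ v = 1}
      mul_mem' := by
        intro a b ha hb ψ hψ
        rw [map_mul, ha ψ hψ, hb ψ hψ, mul_one]
      one_mem' := fun ψ _ => map_one ψ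
      inv_mem' := by
        intro a ha ψ hψ
        rw [map_inv, ha ψ hψ, inv_one] }
  have hK : ⁅(⊤ : Subgroup G), V⁆ ≤ K.map V.subtype := by
    rw [Subgroup.commutator_le]
    intro g _ v hv
    have h1 : g * v * g⁻¹ * v⁻¹ ∈ V := mul_mem (‹V.Normal›.conj_mem v hv g) (inv_mem hv)
    refine ⟨⟨_, h1⟩, ?_, rfl⟩
    intro ψ hψ
    have h2 := hst ψ hψ
    have h3 : g ∈ stab V ψ := by rw [h2]; exact Subgroup.mem_top g
    have h4 := mem_stab.mp h3 ⟨v, hv⟩
    have h5 : (⟨_, h1⟩ : V) = MulAut.conjNormal g ⟨v, hv⟩ * (⟨v, hv⟩ : V)⁻¹ := by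
      apply Subtype.ext
      rw [Subgroup.coe_mul, MulAut.conjNormal_apply, Subgroup.coe_inv]
    rw [h5, map_mul, map_inv, h4, mul_inv_cancel]
  intro w hw
  obtain ⟨v, hv, rfl⟩ := hK hw
  rw [Subgroup.coe_subtype, hs v, map_one_sum s v hv, hcard, hr]

lemma cpart_isSol (hθ : IsSolHeilbronn θ) (Z : Subgroup G) (hZ : Z ≤ Subgroup.center G)
    (l : Z →* ℂˣ) : IsSolHeilbronn (cpart Z l θ) where
  conj g h := by
    unfold cpart
    congr 1
    refine finsum_congr fun z => ?_
    have h1 : (z : G) * (h * g * h⁻¹) = h * (z * g) * h⁻¹ := by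
      have := Subgroup.mem_center_iff.mp (hZ z.2) h
      calc (z : G) * (h * g * h⁻¹) = (z * h) * g * h⁻¹ := by group
        _ = (h * z) * g * h⁻¹ := by rw [this]
        _ = _ := by group
    rw [h1, hθ.conj]
  mult U hU χ := by
    have : Fintype Z := Fintype.ofFinite _
    have : Fintype U := Fintype.ofFinite _
    let m : Z × U →* G :=
      { toFun := fun e => (e.1 : G) * e.2
        map_one' := by simp
        map_mul' := by
          rintro ⟨a, b⟩ ⟨c, d⟩
          have := Subgroup.mem_center_iff.mp (hZ c.2) b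
          simp only [Prod.mk_mul_mk, Subgroup.coe_mul]
          calc (a : G) * c * (b * d) = a * (c * b) * d := by group
            _ = a * (b * c) * d := by rw [this]
            _ = _ := by group }
    let χ' : Z × U →* ℂˣ := (l.comp (MonoidHom.fst Z U)) * (χ.comp (MonoidHom.snd Z U))
    have hs : Group.IsSolvable (Z × U) := by
      refine sol_of_hom (MonoidHom.snd Z U) (sol_of_comm ?_) hU
      rintro ⟨⟨a, b⟩, h1⟩ ⟨⟨c, d⟩, h2⟩
      have h1' : b = 1 := h1
      have h2' : d = 1 := h2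
      apply Subtype.ext
      apply Prod.ext
      · exact Subtype.ext (Subgroup.mem_center_iff.mp (hZ c.2) a)
      · change b * d = d * b
        rw [h1', h2']
    obtain ⟨n, hn⟩ := hθ.mult_hom hs m χ'
    refine ⟨n, ?_⟩
    have hZc : (Nat.card Z : ℂ) ≠ 0 := by exact_mod_cast Nat.card_pos.ne'
    rw [Fintype.sum_prod_type, Nat.card_prod] at hn
    apply mul_left_cancel₀ hZc
    rw [finsum_eq_sum_of_fintype]
    unfold cpart
    have h1 : (Nat.card Z : ℂ) * ∑ x : U, ((Nat.card Z : ℂ)⁻¹ *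
        ∑ᶠ z : Z, θ (z * x) * (((l z)⁻¹ : ℂˣ) : ℂ)) * (((χ x)⁻¹ : ℂˣ) : ℂ)
        = ∑ z : Z, ∑ x : U, θ (m (z, x)) * (((χ' (z, x))⁻¹ : ℂˣ) : ℂ) := by
      rw [Finset.sum_comm, Finset.mul_sum]
      refine Finset.sum_congr rfl fun x _ => ?_
      rw [finsum_eq_sum_of_fintype, mul_assoc, ← mul_assoc (Nat.card Z : ℂ),
        mul_inv_cancel₀ hZc, one_mul, Finset.sum_mul]
      refine Finset.sum_congr rfl fun z _ => ?_
      change _ = θ (z * x) * (((l z * χ x)⁻¹ : ℂˣ) : ℂ)
      rw [mul_inv]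
      push_cast
      ring
    rw [h1, hn]
    push_cast
    ring

lemma cpart_one_le' (hθ : IsSolHeilbronn θ) {r : ℕ} (hr : θ 1 = r) (Z : Subgroup G)
    (hZ : Z ≤ Subgroup.center G) (l : Z →* ℂˣ) :
    ∃ r' : ℕ, r' ≤ r ∧ cpart Z l θ 1 = r' := by
  obtain ⟨r', hr'⟩ := (cpart_isSol hθ Z hZ l).exists_deg
  refine ⟨r', ?_, hr'⟩
  have : Fintype Z := Fintype.ofFinite _
  have hZc : (0 : ℝ) < Nat.card Z := by exact_mod_cast Nat.card_pos
  have h1 : ‖cpart Z l θ 1‖ ≤ r := by
    unfold cpart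
    rw [norm_mul, norm_inv, Complex.norm_natCast, inv_mul_le_iff₀ hZc, finsum_eq_sum_of_fintype]
    calc ‖∑ z : Z, θ (z * 1) * (((l z)⁻¹ : ℂˣ) : ℂ)‖
        ≤ ∑ z : Z, ‖θ (z * 1) * (((l z)⁻¹ : ℂˣ) : ℂ)‖ := norm_sum_le _ _
      _ ≤ ∑ _z : Z, (r : ℝ) := by
          refine Finset.sum_le_sum fun z _ => ?_
          have h2 := hθ.norm_le (z * 1)
          rw [hr, Complex.natCast_re] at h2
          have h3 : ‖(((l z)⁻¹ : ℂˣ) : ℂ)‖ = 1 := by
            have h4 : (l z)⁻¹ ^ (Nat.card Z) = 1 := by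
              rw [inv_pow, ← map_pow, pow_card_eq_one', map_one, inv_one]
            have h5 : ((((l z)⁻¹ : ℂˣ) : ℂ)) ^ (Nat.card Z) = 1 := by
              rw [← Units.val_pow_eq_pow_val, h4, Units.val_one]
            exact Complex.norm_eq_one_of_pow_eq_one h5 Nat.card_pos.ne'
          rw [norm_mul, h3, mul_one]
          exact h2
      _ = (Nat.card Z : ℝ) * r := by
          rw [Finset.sum_const, Finset.card_univ, nsmul_eq_mul, Nat.card_eq_fintype_card]
  rw [hr', Complex.norm_natCast] at h1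
  exact_mod_cast h1

end

end Pool.Agent.H302R9
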