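import Pool.Agent.H302R9.Lift

/-!
# Weak Heilbronn functions: case B
-/

set_option autoImplicit false
set_option linter.unusedSectionVars false

namespace Pool.Agent.H302R9

open Pool.Agent.H302R2 Pool.Agent.H302R3 Pool.Agent.H302R5 Pool.Agent.H302R6 Pool.Agent.H302R7
open Equiv Equiv.Perm

universe u

section

variable {D : Type u} [Group D] [Finite D]

theorem case_b' {r : ℕ} (hr2 : 2 ≤ r) {n : ℕ} (hsmall : Small r n) (hperf : commutator D = ⊤)
    {π : D →* alternatingGroup (Fin n)} (hπ : Function.Surjective π)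
    (hcen : ∀ d, π d = 1 → ∀ g, g * d = d * g)
    {η : D → ℂ} (hη : IsSolHeilbronn η) {r' : ℕ} (hr' : r' ≤ r) (h1 : η 1 = r') (h0 : r' ≠ 0)
    (lam : π.ker →* ℂˣ)
    (hlam : ∀ (z : π.ker) (g : D), η (z * g) = ((lam z : ℂˣ) : ℂ) * η g)
    (hinj : Function.Injective lam) (hne : π.ker ≠ ⊥) : False := by
  classical
  have hη0 : η 1 ≠ 0 := by rw [h1]; exact_mod_cast h0
  have hn8 : 8 ≤ n := hsmall.eight hr2
  -- an element of prime order
  have hcard : Nat.card π.ker ≠ 1 := by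
    intro h
    exact hne (Subgroup.card_eq_one.mp h)
  obtain ⟨p, hp, hpd⟩ := Nat.exists_prime_and_dvd hcard
  have : Fact p.Prime := ⟨hp⟩
  obtain ⟨z, hz⟩ := exists_prime_orderOf_dvd_card' p hpd
  have hzc : ∀ g, g * (z : D) = z * g := hcen z (MonoidHom.mem_ker.mp z.2)
  have hzo : orderOf (z : D) = p := by rw [Subgroup.orderOf_coe, hz]
  have P : Sylow p D := default
  have hzP : (z : D) ∈ P := by
    apply sylow_absorb P hzc (k := 1)
    rw [pow_one, ← hzo, pow_orderOf_eq_one]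
  obtain ⟨t, ht⟩ := IsPGroup.iff_card.mp P.2
  -- decomposition of the elements which are not long
  have hdec : ∀ y : P, ((((π y : alternatingGroup (Fin n)) : Perm (Fin n))).IsCycle →
      (((π y : alternatingGroup (Fin n)) : Perm (Fin n))).support.card + 2 ≤ n) →
      ∃ c k : P, (∀ g : P, g * c = c * g) ∧ η k = η 1 ∧ y = c * k := by
    intro y hy
    obtain ⟨d, hd, hd1⟩ := nonlong_lift' hr2 hsmall hπ hcen hη hr' h1 h0 lam hlam hinj
      (mem_alternatingGroup.mp (π y).2) hy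
    have hc0 : π ((y : D) * d⁻¹) = 1 := by
      rw [map_mul, map_inv, Subtype.ext hd, mul_inv_cancel]
    have hc := hcen _ hc0
    set c₀ : D := (y : D) * d⁻¹ with hc₀
    have hy2 : (y : D) = c₀ * d := by rw [hc₀]; group
    have hcd : Commute c₀ d := (hc d).symm
    obtain ⟨N, hN1, a, hN2⟩ := exists_crt (p := p) (t := t) (m := orderOf c₀) hp
      (orderOf_pos c₀).ne'
    have hyN : (y : D) ^ N = y := by
      have h2 : (y : D) ^ N = (y : D) ^ 1 := by
        rw [pow_eq_pow_iff_modEq]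
        apply hN1.of_dvd
        rw [← ht]
        exact_mod_cast orderOf_dvd_natCard y
      rw [h2, pow_one]
    have hk : d ^ N = (c₀ ^ N)⁻¹ * y := by
      rw [eq_inv_mul_iff_mul_eq, ← hcd.mul_pow, ← hy2, hyN]
    have hcN : ∀ g, g * c₀ ^ N = c₀ ^ N * g := by
      intro g
      exact ((show Commute g c₀ from hc g).pow_right N).eq
    have hcP : c₀ ^ N ∈ P := by
      apply sylow_absorb P hcN (k := a)
      rw [← pow_mul]
      exact orderOf_dvd_iff_pow_eq_one.mp hN2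
    have hkP : d ^ N ∈ P := by
      rw [hk]; exact mul_mem (inv_mem hcP) y.2
    refine ⟨⟨c₀ ^ N, hcP⟩, ⟨d ^ N, hkP⟩, ?_, hη.pow_of_eq hd1 N, ?_⟩
    · intro g
      exact Subtype.ext (hcN g)
    · apply Subtype.ext
      change (y : D) = c₀ ^ N * d ^ N
      rw [hk, mul_inv_cancel_left]
  -- the kernel of `η` on the Sylow subgroup
  let N : Subgroup P :=
    { carrier := {y | η y = η 1}
      mul_mem' := fun {a b} ha hb => hη.pgroup_mul hp P.2 a.2 b.2 ha hb
      one_mem' := rfl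
      inv_mem' := fun {a} ha => hη.inv_of_eq ha }
  have hN : N.Normal := by
    constructor
    intro a ha g
    change η ((g * a * g⁻¹ : P) : D) = η 1
    have h2 : ((g * a * g⁻¹ : P) : D) = (g : D) * a * (g : D)⁻¹ := rfl
    rw [h2, hη.conj]
    exact ha
  obtain ⟨M, x, -, hM1, hM2⟩ := exists_nonlong_normal (P := P) P.2 hn8
    (((alternatingGroup (Fin n)).subtype.comp π).comp (P : Subgroup D).subtype)
  have hq : ∀ w : P, ∃ (i : ℤ) (c : P), (∀ g : P, g * c = c * g) ∧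
      (QuotientGroup.mk w : P ⧸ N) = QuotientGroup.mk (x ^ i * c) := by
    intro w
    obtain ⟨i, s, hs, rfl⟩ := hM1 w
    obtain ⟨c, k, hc, hk, rfl⟩ := hdec s (hM2 s hs)
    refine ⟨i, c, hc, ?_⟩
    rw [← mul_assoc, QuotientGroup.mk_mul _ _ k]
    have h2 : (QuotientGroup.mk k : P ⧸ N) = 1 := (QuotientGroup.eq_one_iff k).mpr hk
    rw [h2, mul_one]
  have hQ : ∀ a b : P ⧸ N, a * b = b * a := by
    intro a b
    obtain ⟨a, rfl⟩ := QuotientGroup.mk_surjective a
    obtain ⟨b, rfl⟩ := QuotientGroup.mk_surjective b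
    obtain ⟨i, c, hc, ha⟩ := hq a
    obtain ⟨j, e, he, hb⟩ := hq b
    rw [ha, hb, ← QuotientGroup.mk_mul, ← QuotientGroup.mk_mul]
    congr 1
    have e1 : x ^ i * c * (x ^ j * e) = x ^ i * x ^ j * (c * e) := by
      calc x ^ i * c * (x ^ j * e) = x ^ i * (c * x ^ j) * e := by group
        _ = x ^ i * (x ^ j * c) * e := by rw [hc]
        _ = x ^ i * x ^ j * (c * e) := by group
    have e2 : x ^ j * e * (x ^ i * c) = x ^ j * x ^ i * (e * c) := by
      calc x ^ j * e * (x ^ i * c) = x ^ j * (e * x ^ i) * c := by group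
        _ = x ^ j * (x ^ i * e) * c := by rw [he]
        _ = x ^ j * x ^ i * (e * c) := by group
    rw [e1, e2, hc e, ← zpow_add, ← zpow_add, add_comm]
  have hsol : Group.IsSolvable N := by
    have h2 : IsPGroup p N := P.2.to_subgroup N
    have := h2.isNilpotent
    infer_instance
  obtain ⟨μ, hμ⟩ := exists_linear (η := fun y : P => η y) (hη.comp_sol (pgroup_sol hp P.2) (P : Subgroup D).subtype) hη0 N
    hsol (fun n hn => hn) hQ
  have : Fintype P := Fintype.ofFinite _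
  rw [finsum_eq_sum_of_fintype] at hμ
  -- the central character
  have hμz : μ ⟨z, hzP⟩ = lam z := by
    have h2 : ∑ y : P, η y * (((μ y)⁻¹ : ℂˣ) : ℂ)
        = ((lam z * (μ ⟨z, hzP⟩)⁻¹ : ℂˣ) : ℂ) * ∑ y : P, η y * (((μ y)⁻¹ : ℂˣ) : ℂ) := by
      refine (Equiv.sum_comp (Equiv.mulLeft (⟨z, hzP⟩ : P))
        (fun y : P => η y * (((μ y)⁻¹ : ℂˣ) : ℂ))).symm.trans ?_
      rw [Finset.mul_sum]
      refine Finset.sum_congr rfl fun a _ => ?_
      have h3 : η ((Equiv.mulLeft (⟨z, hzP⟩ : P) a : P) : D) = ((lam z : ℂˣ) : ℂ) * η a :=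
        hlam z a
      rw [h3, Equiv.coe_mulLeft, map_mul, mul_inv]
      push_cast
      ring
    have h3 : (1 - ((lam z * (μ ⟨z, hzP⟩)⁻¹ : ℂˣ) : ℂ)) *
        ∑ y : P, η y * (((μ y)⁻¹ : ℂˣ) : ℂ) = 0 := by
      rw [sub_mul, one_mul, ← h2, sub_self]
    have h4 := (mul_eq_zero.mp h3).resolve_right hμ
    have h5 : lam z * (μ ⟨z, hzP⟩)⁻¹ = 1 := Units.ext (sub_eq_zero.mp h4).symm
    exact (mul_inv_eq_one.mp h5).symm
  have h5 := central_pow_index hperf (P : Subgroup D) μ hzP hzc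
  have h6 : μ ⟨z, hzP⟩ ^ p = 1 := by
    rw [hμz, ← map_pow]
    have : z ^ p = 1 := by rw [← hz, pow_orderOf_eq_one]
    rw [this, map_one]
  have h7 : Nat.Coprime p (P : Subgroup D).index :=
    (Nat.Prime.coprime_iff_not_dvd hp).mpr P.not_dvd_index
  have h8 : μ ⟨z, hzP⟩ = 1 := by
    have h9 : orderOf (μ ⟨z, hzP⟩) ∣ 1 := by
      rw [← Nat.Coprime.gcd_eq_one h7]
      exact Nat.dvd_gcd (orderOf_dvd_of_pow_eq_one h6) (orderOf_dvd_of_pow_eq_one h5)
    exact orderOf_eq_one_iff.mp (Nat.dvd_one.mp h9)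
  rw [hμz] at h8
  have h9 : z = 1 := hinj (by rw [h8, map_one])
  rw [h9, orderOf_one] at hz
  exact hp.one_lt.ne hz

end

end Pool.Agent.H302R9
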