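import Pool.Agent.H302R9.Prod
import Pool.Agent.H302R7.Const

/-!
# Weak Heilbronn functions: chains
-/

set_option autoImplicit false
set_option linter.unusedSectionVars false

namespace Pool.Agent.H302R9

open Pool.Agent.H302R2 Pool.Agent.H302R3 Pool.Agent.H302R5 Pool.Agent.H302R6 Pool.Agent.H302R7
open Equiv Equiv.Perm

universe u

section

variable {G : Type u} [Group G] [Finite G] {θ : G → ℂ}

theorem const_chain' {r : ℕ} (hr : 2 ≤ r) (hθ : IsSolHeilbronn θ) {N : Subgroup G} (h : Chn r N)
    (hN : ∀ n ∈ N, θ n = θ 1) : ∀ n ∈ N, ∀ x, θ (n * x) = θ x := by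
  classical
  have : Fintype G := Fintype.ofFinite _
  induction h with
  | bot =>
    intro n hn x
    rw [Subgroup.mem_bot.mp hn, one_mul]
  | step A B hA hB hAB hL h ih =>
    have ihA := ih (fun n hn => hN n (hAB hn))
    rcases hL with hL | ⟨ι, hι, n, f, hn, hf, hk⟩
    · let π : G →* G ⧸ A := QuotientGroup.mk' A
      have hπ : Function.Surjective π := QuotientGroup.mk'_surjective A
      have hker : π.ker = A := QuotientGroup.ker_mk' A
      have hθ' := push_sol hπ hθ (by rw [hker]; exact ihA)
      have hpush : ∀ x, push π θ (π x) = θ x := push_mk (by rw [hker]; exact ihA)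
      have hp1 : push π θ 1 = θ 1 := by rw [← hpush 1, map_one]
      have hNn : (B.map π).Normal := hB.map π hπ
      have hs : Group.IsSolvable (B.map π) := by
        apply sol_of_comm
        rintro ⟨_, a, ha, rfl⟩ ⟨_, b, hb, rfl⟩
        apply Subtype.ext
        change π a * π b = π b * π a
        have h1 : π (a * b * a⁻¹ * b⁻¹) = 1 := by
          rw [← MonoidHom.mem_ker, hker]
          exact hL a ha b hb
        rwa [map_mul, map_mul, map_mul, map_inv, map_inv, mul_inv_eq_one,
          mul_inv_eq_iff_eq_mul] at h1
      intro b hb x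
      have h1 := const_sol' hθ' (B.map π) hs (by
        rintro _ ⟨c, hc, rfl⟩
        rw [hpush, hp1]
        exact hN c hc) (π b) ⟨b, hb, rfl⟩ (π x)
      rwa [← map_mul, hpush, hpush] at h1
    · let π : G →* G ⧸ A := QuotientGroup.mk' A
      have hπ : Function.Surjective π := QuotientGroup.mk'_surjective A
      have hker : π.ker = A := QuotientGroup.ker_mk' A
      have hθ' := push_sol hπ hθ (by rw [hker]; exact ihA)
      have hpush : ∀ x, push π θ (π x) = θ x := push_mk (by rw [hker]; exact ihA)
      -- the product inside the quotient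
      have hsel : ∀ z : (∀ i, alternatingGroup (Fin (n i))), ∃ b : B, f b = z := hf
      choose σ hσ using hsel
      have hwd : ∀ b b' : B, f b = f b' → π b = π b' := by
        intro b b' hbb
        have h1 : b⁻¹ * b' ∈ f.ker := by
          rw [MonoidHom.mem_ker, map_mul, map_inv, hbb, inv_mul_cancel]
        rw [hk, Subgroup.mem_subgroupOf, ← hker, MonoidHom.mem_ker, Subgroup.coe_mul,
          Subgroup.coe_inv, map_mul, map_inv, inv_mul_eq_one] at h1
        exact h1
      let ψ : (∀ i, alternatingGroup (Fin (n i))) →* G ⧸ A :=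
        { toFun := fun z => π (σ z)
          map_one' := by
            rw [hwd (σ 1) 1 (by rw [hσ, map_one]), Subgroup.coe_one, map_one]
          map_mul' := by
            intro a b
            rw [hwd (σ (a * b)) (σ a * σ b) (by rw [hσ, map_mul, hσ, hσ]), Subgroup.coe_mul,
              map_mul] }
      have hψf : ∀ b : B, ψ (f b) = π b := fun b => hwd _ _ (hσ _)
      have hψ : Function.Injective ψ := by
        rw [injective_iff_map_eq_one]
        intro z hz
        have h1 : (σ z : G) ∈ A := by
          rw [← hker, MonoidHom.mem_ker]; exact hz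
        have h2 : σ z ∈ f.ker := by
          rw [hk, Subgroup.mem_subgroupOf]; exact h1
        rw [← hσ z]
        exact h2
      have hrange : ψ.range = B.map π := by
        ext y
        constructor
        · rintro ⟨z, rfl⟩
          exact ⟨σ z, (σ z).2, rfl⟩
        · rintro ⟨b, hb, rfl⟩
          exact ⟨f ⟨b, hb⟩, hψf ⟨b, hb⟩⟩
      have hNn : (B.map π).Normal := hB.map π hπ
      have h8 : ∀ i, 8 ≤ n i := fun i => (hn i).eight hr
      have hconst : ∀ x y, push π θ (x * ψ y) = push π θ x := by
        intro x y
        refine prod_const' hθ' ψ hψ (by rw [hrange]; exact hNn) (fun i => alt_simple (h8 i))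
          (fun i => alt_center (h8 i)) (fun i => ⟨2, Nat.prime_two, fun β => out_alt ?_ β⟩) ?_ x y
        · rw [Fintype.card_fin]; have := h8 i; omega
        · intro i t
          have h1 : push π θ (ψ (Pi.mulSingle i t)) = θ (σ (Pi.mulSingle i t)) := hpush _
          rw [h1, hN _ (σ _).2]
          have h2 := hpush 1
          rw [map_one] at h2
          exact h2.symm
      intro b hb x
      have h1 : (π x)⁻¹ * π b * π x ∈ B.map π := by
        have := hNn.conj_mem (π b) ⟨b, hb, rfl⟩ (π x)⁻¹
        rwa [inv_inv] at this
      rw [← hrange] at h1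
      obtain ⟨y, hy⟩ := h1
      rw [← hpush, ← hpush x, map_mul]
      have h2 : π b * π x = π x * ψ y := by rw [hy]; group
      rw [h2]
      exact hconst _ y

end

end Pool.Agent.H302R9
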