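import Pool.Agent.H302R9.Main

/-!
# Weak Heilbronn functions inflated from a solvable quotient are Heilbronn functions
-/

set_option autoImplicit false
set_option linter.unusedSectionVars false

namespace Pool.Agent.H302R9

open Pool.Agent.H302R2 Pool.Agent.H302R3 Pool.Agent.H302R5 Pool.Agent.H302R6 Pool.Agent.H302R7

universe u

section

variable {G : Type u} [Group G] [Finite G]

lemma quot_derived_solvable (i : ℕ) : Group.IsSolvable (G ⧸ derivedSeries G i) := by
  refine ⟨i, ?_⟩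
  rw [← map_derivedSeries_eq (QuotientGroup.mk'_surjective (derivedSeries G i)) i]
  rw [Subgroup.map_eq_bot_iff, QuotientGroup.ker_mk']

theorem full_of_resid {θ : G → ℂ} (hθ : IsSolHeilbronn θ) (N : Subgroup G) [hN : N.Normal]
    (hQ : Group.IsSolvable (G ⧸ N)) (hc : ∀ n ∈ N, ∀ x, θ (n * x) = θ x) : IsHeilbronn θ := by
  classical
  have : Fintype G := Fintype.ofFinite _
  let π : G →* G ⧸ N := QuotientGroup.mk' N
  have hπ : Function.Surjective π := QuotientGroup.mk'_surjective N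
  have hker : π.ker = N := QuotientGroup.ker_mk' N
  have hc' : ∀ n ∈ π.ker, ∀ x, θ (n * x) = θ x := by rw [hker]; exact hc
  have h1 : IsSolHeilbronn (push π θ) := push_sol hπ hθ hc'
  have h2 : IsHeilbronn (push π θ) := h1.comp_sol hQ (MonoidHom.id _)
  have h3 := h2.comp π
  have h4 : (fun g => push π θ (π g)) = θ := funext (push_mk hc')
  rwa [h4] at h3

theorem main_full (θ : G → ℂ) (hθ : IsSolHeilbronn θ) (r : ℕ)
    (hr : θ 1 = r) (l : ℕ) (N : ℕ → Subgroup G) (h0 : N 0 = ⊥) (hl : N l = ⊤)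
    (hnorm : ∀ j ≤ l, (N j).Normal) (hle : ∀ j < l, N j ≤ N (j + 1))
    (hlayer : ∀ j < l, (∀ a ∈ N (j + 1), ∀ b ∈ N (j + 1), a * b * a⁻¹ * b⁻¹ ∈ N j) ∨
      ∃ (m : ℕ) (n k : Fin m → ℕ)
        (f : N (j + 1) →* (∀ i : Fin m, alternatingGroup (Fin (n i)))),
        (∀ i, r < 2 ^ (n i / 4) ∧ 2 ≤ k i ∧ r < (2 ^ k i - 1) * (n i / 2 ^ k i)) ∧
        Function.Surjective f ∧ f.ker = (N j).subgroupOf (N (j + 1))) :
    IsHeilbronn θ ∧ ∃ i, ∀ x ∈ derivedSeries G i, ∀ g, θ (x * g) = θ g := by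
  obtain ⟨i, hi⟩ := main' θ hθ r hr l N h0 hl hnorm hle hlayer
  exact ⟨full_of_resid hθ (derivedSeries G i) (quot_derived_solvable i) hi, i, hi⟩

end

end Pool.Agent.H302R9
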