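import Pool.Agent.H302R9.Block

/-!
# Weak Heilbronn functions: central extensions of alternating groups
-/

set_option autoImplicit false
set_option linter.unusedSectionVars false

namespace Pool.Agent.H302R9

open Pool.Agent.H302R2 Pool.Agent.H302R3 Pool.Agent.H302R5 Pool.Agent.H302R6 Pool.Agent.H302R7
open Equiv Equiv.Perm

universe u

open Pool.Agent.H302R7.Setup

section

variable {D : Type u} [Group D] {n m : ℕ} {F : Type} [Field F] [Fintype F] [DecidableEq F]
  (S : Setup D n m F)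

theorem bound_of_nontrivial' [Finite D] {η : D → ℂ} (hη : IsSolHeilbronn η) {r : ℕ} (hr : η 1 = r)
    (hr0 : r ≠ 0) (Z : Subgroup D) (hZ : ∀ d, d ∈ Z ↔ S.π d = 1) (lam : Z →* ℂˣ)
    (hlam : ∀ (z : Z) (g : D), η (z * g) = ((lam z : ℂˣ) : ℂ) * η g)
    (hinj : Function.Injective lam) (h2 : (1 : F) + 1 = 0) {i₀ : Fin m} {x₀ y₀ : F}
    (hB : S.B (Pi.single i₀ x₀) (Pi.single i₀ y₀) ≠ 1) : 2 ^ m ≤ r := by
  classical
  have hx₀ : x₀ ≠ 0 := by
    rintro rfl
    apply hB
    rw [Pi.single_zero, B_zero_left]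
  have hnd : ∀ (i : Fin m) (x : F), x ≠ 0 → ∃ y, S.B (Pi.single i x) (Pi.single i y) ≠ 1 := by
    intro i x hx
    let v : Fˣ := Units.mk0 (x₀ / x) (div_ne_zero hx₀ hx)
    refine ⟨((v⁻¹ : Fˣ) : F) * y₀, ?_⟩
    have h1 := S.B_mono (fun _ => v) (Equiv.swap i i₀) (Pi.single i₀ x₀) (Pi.single i₀ y₀)
    have e1 : ∀ z : F, Tm (fun _ : Fin m => v) (Equiv.swap i i₀) (Pi.single i₀ z)
        = Pi.single i (((v⁻¹ : Fˣ) : F) * z) := by
      intro z
      have := Tm_single (fun _ : Fin m => v) (Equiv.swap i i₀) i z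
      rwa [Equiv.swap_apply_left] at this
    rw [e1, e1] at h1
    have e2 : ((v⁻¹ : Fˣ) : F) * x₀ = x := by
      rw [Units.val_inv_eq_inv_val, Units.val_mk0]
      field_simp
    rw [e2] at h1
    rw [h1]
    exact hB
  -- vanishing
  have hvan : ∀ (a : Fin m → F), a ≠ 0 → ∀ d, S.π d = S.E a → η d = 0 := by
    intro a ha d hd
    obtain ⟨i, hi⟩ := Function.ne_iff.mp ha
    obtain ⟨y, hy⟩ := hnd i (a i) hi
    have h1 : S.B a (Pi.single i y) ≠ 1 := by
      rw [← B_symm, B_single_right, B_symm]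
      exact hy
    set e := S.L (Pi.single i y) with he
    have h3 : kap d e = S.B a (Pi.single i y) := S.B_eq hd (S.π_L _)
    set z := S.B a (Pi.single i y) with hz
    have hzZ : z ∈ Z := by rw [hZ]; exact S.π_B _ _
    have h4 : e⁻¹ * d * e⁻¹⁻¹ = z * d := by
      have h5 := S.B_central a (Pi.single i y) e⁻¹
      have h6 : d * e = z * (e * d) := by
        rw [← h3]; unfold kap; group
      calc e⁻¹ * d * e⁻¹⁻¹ = e⁻¹ * (d * e) := by rw [inv_inv, mul_assoc]
        _ = e⁻¹ * (z * (e * d)) := by rw [h6]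
        _ = (e⁻¹ * z) * (e * d) := by rw [mul_assoc]
        _ = (z * e⁻¹) * (e * d) := by rw [h5]
        _ = z * d := by rw [mul_assoc, inv_mul_cancel_left]
    have h5 := hη.conj d e⁻¹
    rw [h4] at h5
    have h6 := hlam ⟨z, hzZ⟩ d
    change η (z * d) = _ at h6
    rw [h5] at h6
    have h7 : ((lam ⟨z, hzZ⟩ : ℂˣ) : ℂ) ≠ 1 := by
      intro h
      apply h1
      have h8 : lam ⟨z, hzZ⟩ = lam 1 := by rw [map_one]; exact Units.ext h
      exact congrArg Subtype.val (hinj h8)
    have h8 : (1 - ((lam ⟨z, hzZ⟩ : ℂˣ) : ℂ)) * η d = 0 := by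
      rw [sub_mul, one_mul, ← h6, sub_self]
    rcases mul_eq_zero.mp h8 with h9 | h9
    · exact absurd (sub_eq_zero.mp h9).symm h7
    · exact h9
  -- the commutative subgroup
  let A : Subgroup D :=
    { carrier := {d | ∃ a : Fin m → F, (∀ i, a i = 0 ∨ a i = 1) ∧ S.π d = S.E a}
      mul_mem' := by
        rintro d e ⟨a, ha, hd⟩ ⟨b, hb, he⟩
        refine ⟨a + b, fun i => ?_, by rw [map_mul, hd, he, E_add]⟩
        rw [Pi.add_apply]
        rcases ha i with h | h <;> rcases hb i with h' | h' <;> rw [h, h']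
        · left; ring
        · right; ring
        · right; ring
        · left; exact h2
      one_mem' := ⟨0, fun i => Or.inl rfl, by rw [map_one, E_zero]⟩
      inv_mem' := by
        rintro d ⟨a, ha, hd⟩
        refine ⟨a, ha, ?_⟩
        rw [map_inv, hd, inv_eq_iff_mul_eq_one, ← E_add]
        have : a + a = 0 := by
          funext i
          rw [Pi.add_apply, Pi.zero_apply]
          rcases ha i with h | h <;> rw [h]
          · ring
          · exact h2
        rw [this, E_zero] }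
  have hmemA : ∀ d, d ∈ A ↔ ∃ a : Fin m → F, (∀ i, a i = 0 ∨ a i = 1) ∧ S.π d = S.E a :=
    fun d => Iff.rfl
  have hZA : Z ≤ A := by
    intro z hz
    refine ⟨0, fun i => Or.inl rfl, ?_⟩
    rw [(hZ z).mp hz, E_zero]
  have hcA : ∀ a b : A, a * b = b * a := by
    rintro ⟨d, a, ha, hd⟩ ⟨e, b, hb, he⟩
    apply Subtype.ext
    change d * e = e * d
    have h3 : kap d e = 1 := by
      rw [S.B_eq hd he]
      apply S.B_expand
      intro i
      rcases ha i with h | h
      · rw [h, Pi.single_zero, B_zero_left]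
      · rcases hb i with h' | h'
        · rw [h', Pi.single_zero, B_zero_right]
        · rw [h, h', B_self]
    unfold kap at h3
    rw [mul_inv_eq_one, mul_inv_eq_iff_eq_mul] at h3
    exact h3
  have hvanA : ∀ a ∈ A, a ∉ Z → η a = 0 := by
    rintro d ⟨a, ha, hd⟩ hdZ
    apply hvan a _ d hd
    rintro rfl
    apply hdZ
    rw [hZ, hd, E_zero]
  have hle := card_le_of_vanish' hη hr hr0 Z lam hlam A hZA hcA hvanA
  -- the order of `A`
  let bt : (Fin m → Bool) → (Fin m → F) := fun v i => if v i then 1 else 0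
  have hbt : ∀ v i, bt v i = 0 ∨ bt v i = 1 := by
    intro v i
    simp only [bt]
    split_ifs
    · right; rfl
    · left; rfl
  have hbti : Function.Injective bt := by
    intro v w hvw
    funext i
    have := congrFun hvw i
    simp only [bt] at this
    by_cases h3 : v i <;> by_cases h4 : w i
    · rw [h3, h4]
    · rw [if_pos h3, if_neg h4] at this; exact absurd this one_ne_zero
    · rw [if_neg h3, if_pos h4] at this; exact absurd this.symm one_ne_zero
    · rw [Bool.not_eq_true] at h3 h4; rw [h3, h4]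
  have hcard : Nat.card Z * 2 ^ m ≤ Nat.card A := by
    have h3 : Nat.card (Z × (Fin m → Bool)) = Nat.card Z * 2 ^ m := by
      rw [Nat.card_prod, Nat.card_fun]
      simp
    rw [← h3]
    apply Nat.card_le_card_of_injective (fun e : Z × (Fin m → Bool) =>
      (⟨(e.1 : D) * S.L (bt e.2), bt e.2, hbt _, by
        rw [map_mul, (hZ _).mp e.1.2, one_mul, π_L]⟩ : A))
    rintro ⟨z, v⟩ ⟨w, v'⟩ h
    have h4 : (z : D) * S.L (bt v) = w * S.L (bt v') := congrArg Subtype.val h
    have h5 := congrArg S.π h4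
    rw [map_mul, map_mul, (hZ _).mp z.2, (hZ _).mp w.2, one_mul, one_mul, π_L, π_L] at h5
    have h6 := hbti (S.E_injective h5)
    subst h6
    have h7 := mul_right_cancel h4
    exact Prod.ext (Subtype.ext h7) rfl
  have hpos : 0 < Nat.card Z := Nat.card_pos
  have h3 : Nat.card Z * 2 ^ m ≤ Nat.card Z * r := by rw [mul_comm _ r]; exact hcard.trans hle
  exact Nat.le_of_mul_le_mul_left h3 hpos

theorem exists_lift' [Finite D] {η : D → ℂ} (hη : IsSolHeilbronn η) {r : ℕ} (hr : η 1 = r)
    (hlt : r < (Fintype.card F - 1) * m) (hB : ∀ a b, S.B a b = 1) (a : Fin m → F) :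
    ∃ d, S.π d = S.E a ∧ η d = η 1 := by
  classical
  obtain ⟨u₀, hu₀⟩ := exists_unit S.hF
  obtain ⟨x, hx⟩ := S.surj (S.M (fun _ => u₀) 1)
  let δ : (Fin m → F) → D := fun a => kap x (S.L a)
  have hM : ∀ a : Fin m → F, S.M (fun _ => u₀) 1 * S.E a * (S.M (fun _ => u₀) 1)⁻¹
      = S.E (fun i => (u₀ : F) * a i) := by
    intro a
    have h1 := S.M_conj (fun _ => u₀) 1 (fun i => (u₀ : F) * a i)
    have h2 : Tm (fun _ : Fin m => u₀) 1 (fun i => (u₀ : F) * a i) = a := by
      funext i
      simp [Tm]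
    rw [h2] at h1
    exact h1
  have hπδ : ∀ a : Fin m → F, S.π (δ a) = S.E ((fun i => (u₀ : F) * a i) - a) := by
    intro a
    change S.π (kap x (S.L a)) = _
    unfold kap
    rw [map_mul, map_mul, map_mul, map_inv, map_inv, hx, π_L, hM, E_sub]
  have hδ : ∀ (x' d : D) (a : Fin m → F), S.π x' = S.M (fun _ => u₀) 1 → S.π d = S.E a →
      kap x' d = δ a := by
    intro x' d a hx' hd
    apply kap_congr
    · apply S.cen
      rw [map_mul, map_inv, hx', hx, mul_inv_cancel]
    · apply S.cen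
      rw [map_mul, map_inv, hd, π_L, mul_inv_cancel]
  have hcomm : ∀ (d e : D) (a b : Fin m → F), S.π d = S.E a → S.π e = S.E b → d * e = e * d := by
    intro d e a b hd he
    have h3 : kap d e = 1 := by rw [S.B_eq hd he, hB]
    unfold kap at h3
    rw [mul_inv_eq_one, mul_inv_eq_iff_eq_mul] at h3
    exact h3
  have hadd : ∀ a b, δ (a + b) = δ a * δ b := by
    intro a b
    have h1 : kap x (S.L a * S.L b) = δ (a + b) :=
      hδ x _ _ hx (by rw [map_mul, π_L, π_L, E_add])
    have h2 := hcomm (S.L a) (δ b) _ _ (S.π_L a) (hπδ b)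
    rw [← h1]
    have e1 : kap x (S.L a * S.L b) = kap x (S.L a) * (S.L a * kap x (S.L b) * (S.L a)⁻¹) := by
      unfold kap; group
    rw [e1]
    change δ a * (S.L a * δ b * (S.L a)⁻¹) = δ a * δ b
    rw [h2, mul_inv_cancel_right]
  set c : F := ((u₀ : F) - 1)⁻¹ with hc
  have hu1 : (u₀ : F) - 1 ≠ 0 := sub_ne_zero.mpr hu₀
  let sec : Multiplicative (Fin m → F) →* D :=
    { toFun := fun a => δ (fun i => c * Multiplicative.toAdd a i)
      map_one' := by
        have h1 := hadd 0 0
        rw [add_zero] at h1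
        have h2 : δ 0 = 1 := mul_eq_left.mp h1.symm
        have h3 : (fun i => c * Multiplicative.toAdd (1 : Multiplicative (Fin m → F)) i) = 0 := by
          funext i; simp
        rw [h3, h2]
      map_mul' := by
        intro a b
        rw [← hadd]
        congr 1
        funext i
        simp [mul_add] }
  have hsec : ∀ a : Fin m → F, sec (Multiplicative.ofAdd a) = δ (fun i => c * a i) := fun a => rfl
  refine ⟨sec (Multiplicative.ofAdd a), ?_, ?_⟩
  · rw [hsec, hπδ]
    congr 1
    funext i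
    rw [Pi.sub_apply, hc]
    field_simp
  · apply block_kernel_gen' hη S.hF sec ?_ hr hlt a
    intro u σ a
    rw [hsec, hsec]
    change η (δ (fun i => c * Tm u σ a i)) = _
    have h1 : (fun i => c * Tm u σ a i) = Tm u σ (fun i => c * a i) := by
      funext i
      unfold Tm
      ring
    rw [h1]
    set b : Fin m → F := fun i => c * a i with hb
    obtain ⟨h, hh⟩ := S.surj (S.M u σ)
    have h2 : kap (h * x * h⁻¹) (h * S.L (Tm u σ b) * h⁻¹) = δ b := by
      apply hδ
      · rw [map_mul, map_mul, map_inv, hh, hx, M_comm, mul_inv_cancel_right]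
      · rw [map_mul, map_mul, map_inv, hh, π_L, M_conj]
    rw [kap_conj] at h2
    rw [← h2, hη.conj]

end

section

variable {D : Type u} [Group D] [Finite D] {n : ℕ}

lemma LK_cl' {π : D →* alternatingGroup (Fin n)} (hπ : Function.Surjective π)
    {η : D → ℂ} (hη : IsSolHeilbronn η) (h0 : η 1 ≠ 0) (lam : π.ker →* ℂˣ)
    (hlam : ∀ (z : π.ker) (g : D), η (z * g) = ((lam z : ℂˣ) : ℂ) * η g)
    (hinj : Function.Injective lam) : Cl (LK π η) := by
  -- kernel elements in the kernel of `η` are trivial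
  have hone : ∀ z : D, π z = 1 → ∀ d : D, η (z * d) = η 1 → η d = η 1 → z = 1 := by
    intro z hz d h1 h2
    have h3 := hlam ⟨z, MonoidHom.mem_ker.mpr hz⟩ d
    change η (z * d) = _ at h3
    rw [h1, h2] at h3
    have h4 : ((lam ⟨z, MonoidHom.mem_ker.mpr hz⟩ : ℂˣ) : ℂ) = 1 := by
      have h5 : (1 - ((lam ⟨z, MonoidHom.mem_ker.mpr hz⟩ : ℂˣ) : ℂ)) * η 1 = 0 := by
        rw [sub_mul, one_mul, ← h3, sub_self]
      exact (sub_eq_zero.mp ((mul_eq_zero.mp h5).resolve_right h0)).symm
    have h5 : lam ⟨z, MonoidHom.mem_ker.mpr hz⟩ = lam 1 := by rw [map_one]; exact Units.ext h4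
    exact congrArg Subtype.val (hinj h5)
  refine ⟨?_, ?_, ?_, ?_, ?_⟩
  · rintro g ⟨d, rfl, -⟩
    exact mem_alternatingGroup.mp (π d).2
  · exact ⟨1, by rw [map_one]; rfl, rfl⟩
  · rintro x y ⟨d, hd, hd1⟩ ⟨e, he, he1⟩ hxy
    have h1 : π d * π e = π e * π d := by
      apply Subtype.ext
      rw [Subgroup.coe_mul, Subgroup.coe_mul, hd, he, hxy]
    have h2 : π (kap d e) = 1 := by
      unfold kap
      rw [map_mul, map_mul, map_mul, map_inv, map_inv, h1, mul_inv_cancel_right, mul_inv_cancel]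
    have h3 : kap d e = 1 := by
      apply hone _ h2 e
      · have : kap d e * e = d * e * d⁻¹ := by unfold kap; group
        rw [this, hη.conj, he1]
      · exact he1
    have h4 : d * e = e * d := by
      unfold kap at h3
      rwa [mul_inv_eq_one, mul_inv_eq_iff_eq_mul] at h3
    refine ⟨d * e, by rw [map_mul, Subgroup.coe_mul, hd, he], ?_⟩
    rw [hη.mul_of_comm h4 he1, hd1]
  · rintro x c ⟨d, hd, hd1⟩ hc
    obtain ⟨e, he⟩ := hπ ⟨c, mem_alternatingGroup.mpr hc⟩
    refine ⟨e * d * e⁻¹, ?_, ?_⟩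
    · rw [map_mul, map_mul, map_inv, he, Subgroup.coe_mul, Subgroup.coe_mul, Subgroup.coe_inv, hd]
    · rw [hη.conj, hd1]
  · have hsq : ∀ (x : Perm (Fin n)) (d : D), ((π d : alternatingGroup (Fin n)) : Perm (Fin n)) = x →
        η d = η 1 → x * x = 1 → d * d = 1 := by
      intro x d hd hd1 hx
      apply hone (d * d) _ 1
      · rw [mul_one]
        have := hη.pow_of_eq hd1 2
        rwa [pow_two] at this
      · rfl
      · rw [map_mul]
        apply Subtype.ext
        rw [Subgroup.coe_mul, hd, hx]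
        rfl
    rintro x y ⟨d, hd, hd1⟩ ⟨e, he, he1⟩ hx hy
    refine ⟨d * e, by rw [map_mul, Subgroup.coe_mul, hd, he], ?_⟩
    exact hη.mul_of_invol (hsq x d hd hd1 hx) (hsq y e he he1 hy) hd1 he1

theorem nonlong_lift' {r : ℕ} (hr2 : 2 ≤ r) (hsmall : Small r n)
    {π : D →* alternatingGroup (Fin n)} (hπ : Function.Surjective π)
    (hcen : ∀ d, π d = 1 → ∀ g, g * d = d * g)
    {η : D → ℂ} (hη : IsSolHeilbronn η) {r' : ℕ} (hr' : r' ≤ r) (h1 : η 1 = r') (h0 : r' ≠ 0)
    (lam : π.ker →* ℂˣ)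
    (hlam : ∀ (z : π.ker) (g : D), η (z * g) = ((lam z : ℂˣ) : ℂ) * η g)
    (hinj : Function.Injective lam) {g : Perm (Fin n)} (hgs : Perm.sign g = 1)
    (hg : g.IsCycle → g.support.card + 2 ≤ n) : LK π η g := by
  classical
  have hη0 : η 1 ≠ 0 := by rw [h1]; exact_mod_cast h0
  have hcl := LK_cl' hπ hη hη0 lam hlam hinj
  obtain ⟨hsm, k, hk, hlt⟩ := hsmall
  have hn8 : 8 ≤ n := Small.eight ⟨hsm, k, hk, hlt⟩ hr2
  set m := n / 2 ^ k with hm
  have hmpos : 0 < m := by
    rcases Nat.eq_zero_or_pos m with h | h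
    · rw [h, mul_zero] at hlt; omega
    · exact h
  have : NeZero m := ⟨hmpos.ne'⟩
  have : Fact (Nat.Prime 2) := ⟨Nat.prime_two⟩
  let F := GaloisField 2 k
  have : Fintype F := Fintype.ofFinite F
  have hcardF : Fintype.card F = 2 ^ k := by
    rw [← Nat.card_eq_fintype_card]; exact GaloisField.card 2 k (by omega)
  have h4 : 4 ≤ Fintype.card F := by
    rw [hcardF]
    calc 4 = 2 ^ 2 := by norm_num
      _ ≤ 2 ^ k := Nat.pow_le_pow_right (by norm_num) hk
  have heven : Even (Fintype.card F) := by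
    rw [hcardF]; exact (Nat.even_pow.mpr ⟨even_two, by omega⟩)
  have hemb : Nonempty (Fin m × F ↪ Fin n) := by
    apply Function.Embedding.nonempty_of_card_le
    rw [Fintype.card_prod, Fintype.card_fin, Fintype.card_fin, hcardF, hm]
    exact Nat.div_mul_le_self n (2 ^ k)
  obtain ⟨f⟩ := hemb
  let S : Setup D n m F := ⟨π, hπ, hcen, h4, heven, f⟩
  have htriv : ∀ a b, S.B a b = 1 := by
    apply S.B_trivial
    rcases Nat.lt_or_ge k 3 with hk3 | hk3
    · have hk2 : k = 2 := by omega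
      by_contra hcon
      push Not at hcon
      obtain ⟨i, x, y, hxy⟩ := hcon
      have h2 : (1 : F) + 1 = 0 := CharTwo.add_self_eq_zero _
      have h5 := bound_of_nontrivial' S hη h1 h0 π.ker (fun d => MonoidHom.mem_ker) lam hlam hinj
        h2 hxy
      have h6 : m = n / 4 := by rw [hm, hk2]; norm_num
      rw [h6] at h5
      omega
    · apply S.B_same
      rw [hcardF]
      calc 5 ≤ 2 ^ 3 := by norm_num
        _ ≤ 2 ^ k := Nat.pow_le_pow_right (by norm_num) hk3
  let a : Fin m → F := Pi.single 0 1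
  obtain ⟨d, hd, hd1⟩ := exists_lift' S hη h1 (by rw [hcardF]; exact lt_of_le_of_lt hr' hlt) htriv a
  set x : Perm (Fin n) := ((S.E a : alternatingGroup (Fin n)) : Perm (Fin n)) with hx
  have hxK : LK π η x := ⟨d, congrArg Subtype.val hd, hd1⟩
  have haa : a + a = 0 := by
    ext i
    simp only [Pi.add_apply, Pi.zero_apply]
    exact CharTwo.add_self_eq_zero _
  have hx2 : x * x = 1 := by
    rw [hx, ← Subgroup.coe_mul, ← S.E_add, haa, S.E_zero]
    rfl
  have hx1 : x ≠ 1 := by
    intro h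
    have h5 : S.E a = S.E 0 := by rw [S.E_zero]; exact Subtype.ext h
    have h6 := congrFun (S.E_injective h5) 0
    simp [a] at h6
  have hD : HasDS (LK π η) := by
    intro a b c d hab hac had hbc hbd hcd
    exact Cl.double_swap hcl hxK hx2 hx1 hab hac had hbc hbd hcd
  exact Cl.of_not_long hcl hD hgs (by rw [Fintype.card_fin]; exact hg)

end

end Pool.Agent.H302R9
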