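import Pool.Agent.H302R9.Base

/-!
# Weak Heilbronn functions: products of simple groups
-/

set_option autoImplicit false
set_option linter.unusedSectionVars false

namespace Pool.Agent.H302R9

open Pool.Agent.H302R2 Pool.Agent.H302R3 Pool.Agent.H302R5 Pool.Agent.H302R6 Pool.Agent.H302R7

universe u

section orbit

variable {Q : Type u} [Group Q] [Finite Q] {θ : Q → ℂ}

variable (hθ : IsSolHeilbronn θ) (N T₀ : Subgroup Q) [hNn : N.Normal] (hTN : T₀ ≤ N)
  (hTnorm : ∀ n ∈ N, ∀ t ∈ T₀, n * t * n⁻¹ ∈ T₀)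

include hθ hTN hTnorm in
theorem orbit_const' [hsimp : IsSimpleGroup T₀] (hZ : ∀ t : T₀, (∀ s : T₀, s * t = t * s) → t = 1)
    {p : ℕ} (hp : p.Prime)
    (hOut : ∀ β : MulAut T₀, ∃ (k : ℕ) (s : T₀), β ^ (p ^ k) = MulAut.conj s)
    (hN1 : ∀ n ∈ N, θ n = θ 1) (x : Q) (t : Q) (ht : t ∈ T₀) : θ (x * t) = θ x := by
  classical
  -- the return time
  have hex : ∃ m : ℕ, 0 < m ∧ ∀ t ∈ T₀, x ^ m * t * (x ^ m)⁻¹ ∈ T₀ := by
    refine ⟨orderOf x, orderOf_pos x, fun t ht => ?_⟩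
    rw [pow_orderOf_eq_one]; simpa using ht
  set m := Nat.find hex with hm
  have hmpos : 0 < m := (Nat.find_spec hex).1
  have hmT : ∀ t ∈ T₀, x ^ m * t * (x ^ m)⁻¹ ∈ T₀ := (Nat.find_spec hex).2
  have hmin : ∀ j, 0 < j → j < m → ¬ ∀ t ∈ T₀, x ^ j * t * (x ^ j)⁻¹ ∈ T₀ := by
    intro j hj hjm hcon
    exact Nat.find_min hex hjm ⟨hj, hcon⟩
  -- inverse conjugation also preserves T₀
  have hsurj : ∀ g : Q, (∀ t ∈ T₀, g * t * g⁻¹ ∈ T₀) → ∀ t ∈ T₀, g⁻¹ * t * g ∈ T₀ := by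
    intro g hg
    have hinj : Function.Injective (fun d : T₀ => (⟨g * d * g⁻¹, hg d d.2⟩ : T₀)) := by
      intro a b hab
      have := congrArg Subtype.val hab
      simp only at this
      exact Subtype.ext (mul_left_cancel (mul_right_cancel this))
    have hs := Finite.surjective_of_injective hinj
    intro t ht
    obtain ⟨d, hd⟩ := hs ⟨t, ht⟩
    have h1 := congrArg Subtype.val hd
    simp only at h1
    have h2 : g⁻¹ * t * g = d := by rw [← h1]; group
    rw [h2]; exact d.2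
  have hmT' := hsurj _ hmT
  -- elements x^j t x^-j commute with T₀ for 0 < j < m, and for negative exponents
  have hcomm : ∀ j, 0 < j → j < m → ∀ t ∈ T₀, ∀ s ∈ T₀,
      s * (x ^ j * t * (x ^ j)⁻¹) = (x ^ j * t * (x ^ j)⁻¹) * s := by
    intro j hj hjm
    rcases dichotomy N T₀ hTN hTnorm (x ^ j) with h | h
    · exact absurd h (hmin j hj hjm)
    · exact h
  have hcomm' : ∀ j, 0 < j → j < m → ∀ t ∈ T₀, ∀ s ∈ T₀,
      s * ((x ^ j)⁻¹ * t * x ^ j) = ((x ^ j)⁻¹ * t * x ^ j) * s := by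
    intro j hj hjm t ht s hs
    have h1 := hcomm j hj hjm s hs t ht
    have h2 : s * ((x ^ j)⁻¹ * t * x ^ j) = (x ^ j)⁻¹ * ((x ^ j * s * (x ^ j)⁻¹) * t) * x ^ j := by
      group
    have h3 : ((x ^ j)⁻¹ * t * x ^ j) * s = (x ^ j)⁻¹ * (t * (x ^ j * s * (x ^ j)⁻¹)) * x ^ j := by
      group
    rw [h2, h3, h1]
  -- the automorphism
  let β : MulAut T₀ :=
    { toFun := fun t => ⟨x ^ m * t * (x ^ m)⁻¹, hmT t t.2⟩
      invFun := fun t => ⟨(x ^ m)⁻¹ * t * x ^ m, hmT' t t.2⟩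
      left_inv := fun t => Subtype.ext (by simp only; group)
      right_inv := fun t => Subtype.ext (by simp only; group)
      map_mul' := fun a b => Subtype.ext (by simp only [Subgroup.coe_mul]; group) }
  have hβ : ∀ t : T₀, ((β t : T₀) : Q) = x ^ m * t * (x ^ m)⁻¹ := fun t => rfl
  have hβi : ∀ t : T₀, ((β⁻¹ t : T₀) : Q) = (x ^ m)⁻¹ * t * x ^ m := fun t => rfl
  set C := Subgroup.centralizer (T₀ : Set Q) with hC
  have hCmem : ∀ c, c ∈ C ↔ ∀ s ∈ T₀, s * c = c * s := by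
    intro c
    rw [hC, Subgroup.mem_centralizer_iff]
    rfl
  obtain ⟨k, s, hks⟩ := hOut β
  have key := twisted_const hZ β hp s hks (fun v => θ (x * v)) ?_ ?_ ⟨t, ht⟩
  · simpa using key
  · -- M1
    intro v D hDs hDβ d hd
    set z := x * (v : Q) with hz
    -- z ^ m acts as β ∘ conj v
    have hzpow : ∀ j, j + 1 ≤ m → ∃ c ∈ C, z ^ (j + 1) = x ^ (j + 1) * c * v := by
      intro j
      induction j with
      | zero =>
        intro _
        exact ⟨1, one_mem _, by simp [hz]⟩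
      | succ j ih =>
        intro hj
        obtain ⟨c, hc, hcz⟩ := ih (by omega)
        refine ⟨((x ^ (j + 1))⁻¹ * v * x ^ (j + 1)) * c, mul_mem ?_ hc, ?_⟩
        · rw [hCmem]
          intro s hs
          exact hcomm' (j + 1) (by omega) (by omega) v v.2 s hs
        · rw [pow_succ', hcz, hz, pow_succ' x (j + 1)]
          group
    obtain ⟨c, hc, hcz⟩ := hzpow (m - 1) (by omega)
    rw [Nat.sub_add_cancel hmpos] at hcz
    have hzm : ∀ d : T₀, z ^ m * d * (z ^ m)⁻¹ = ((β (v * d * v⁻¹) : T₀) : Q) := by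
      intro d
      rw [hβ, hcz]
      have h1 := (hCmem c).mp hc (v * d * v⁻¹ : T₀) (v * d * v⁻¹ : T₀).2
      have h2 : x ^ m * c * v * d * (x ^ m * c * v)⁻¹
          = x ^ m * (c * ((v * d * v⁻¹ : T₀) : Q)) * c⁻¹ * (x ^ m)⁻¹ := by
        simp only [Subgroup.coe_mul, Subgroup.coe_inv]; group
      rw [h2, ← h1]
      group
    -- conjugates under z commute
    have hzx : ∀ j : ℕ, ∃ n ∈ N, z ^ j = x ^ j * n := by
      intro j
      induction j with
      | zero => exact ⟨1, one_mem _, by simp⟩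
      | succ j ih =>
        obtain ⟨n, hn, hnz⟩ := ih
        refine ⟨(x⁻¹ * n * x) * v, mul_mem ?_ (hTN v.2), ?_⟩
        · have := hNn.conj_mem n hn x⁻¹
          rwa [inv_inv] at this
        · rw [pow_succ, hnz, hz, pow_succ]; group
    have hzcomm : ∀ j, 0 < j → j < m → ∀ t ∈ T₀, ∀ s ∈ T₀,
        s * (z ^ j * t * (z ^ j)⁻¹) = (z ^ j * t * (z ^ j)⁻¹) * s := by
      intro j hj hjm t ht s hs
      obtain ⟨n, hn, hnz⟩ := hzx j
      have h1 : z ^ j * t * (z ^ j)⁻¹ = x ^ j * (n * t * n⁻¹) * (x ^ j)⁻¹ := by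
        rw [hnz]; group
      rw [h1]
      exact hcomm j hj hjm _ (hTnorm n hn t ht) s hs
    -- the solvable subgroups
    let D' : Subgroup Q := D.map T₀.subtype
    have hD's : Group.IsSolvable D' :=
      Group.isSolvable_of_surjective (MonoidHom.subgroupMap_surjective T₀.subtype D)
    have hD'T : D' ≤ T₀ := by
      rintro _ ⟨d, _, rfl⟩
      exact d.2
    let Dj : ℕ → Subgroup Q := fun j => D'.map (MulAut.conj (z ^ j)).toMonoidHom
    have hDjmem : ∀ j y, y ∈ Dj j ↔ ∃ d ∈ D', z ^ j * d * (z ^ j)⁻¹ = y := fun j y => Iff.rfl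
    have hDjs : ∀ j, Group.IsSolvable (Dj j) := fun j =>
      Group.isSolvable_of_surjective (MonoidHom.subgroupMap_surjective _ D')
    have hDjc : ∀ i j, i < j → j < m → ∀ a ∈ Dj i, ∀ b ∈ Dj j, a * b = b * a := by
      rintro i j hij hjm a ha b hb
      obtain ⟨a', ha', rfl⟩ := (hDjmem i a).mp ha
      obtain ⟨b', hb', rfl⟩ := (hDjmem j b).mp hb
      have h1 := hzcomm (j - i) (by omega) (by omega) b' (hD'T hb') a' (hD'T ha')
      have h2 : z ^ j = z ^ i * z ^ (j - i) := by rw [← pow_add]; congr 1; omega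
      have h3 : z ^ i * a' * (z ^ i)⁻¹ * (z ^ j * b' * (z ^ j)⁻¹)
          = z ^ i * (a' * (z ^ (j - i) * b' * (z ^ (j - i))⁻¹)) * (z ^ i)⁻¹ := by
        rw [h2]; group
      have h4 : (z ^ j * b' * (z ^ j)⁻¹) * (z ^ i * a' * (z ^ i)⁻¹)
          = z ^ i * ((z ^ (j - i) * b' * (z ^ (j - i))⁻¹) * a') * (z ^ i)⁻¹ := by
        rw [h2]; group
      rw [h3, h4, h1]
    have hEs := esup_sol Dj (m := m) (fun i _ => hDjs i) hDjc m le_rfl
    set E := esup Dj m with hE
    have hD0 : D' ≤ E := by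
      have h1 : Dj 0 ≤ E := le_esup Dj hmpos
      intro y hy
      apply h1
      exact ⟨y, hy, by simp⟩
    have hDm : Dj m ≤ E := by
      intro y hy
      obtain ⟨y', hy', rfl⟩ := (hDjmem m y).mp hy
      obtain ⟨d, hd, rfl⟩ := hy'
      apply hD0
      refine ⟨β (v * d * v⁻¹), hDβ d hd, ?_⟩
      exact (hzm d).symm
    have hzE : ∀ y ∈ E, z * y * z⁻¹ ∈ E := by
      have h1 : E ≤ E.comap (MulAut.conj z).toMonoidHom := by
        conv_lhs => rw [hE]
        refine esup_le Dj fun i hi y hy => ?_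
        rw [Subgroup.mem_comap]
        obtain ⟨y', hy', rfl⟩ := (hDjmem i y).mp hy
        have h2 : (MulAut.conj z).toMonoidHom (z ^ i * y' * (z ^ i)⁻¹) ∈ Dj (i + 1) := by
          refine ⟨y', hy', ?_⟩
          change z ^ (i + 1) * y' * (z ^ (i + 1))⁻¹ = z * (z ^ i * y' * (z ^ i)⁻¹) * z⁻¹
          rw [pow_succ']; group
        rcases Nat.lt_or_ge (i + 1) m with h3 | h3
        · exact le_esup Dj h3 h2
        · have h4 : i + 1 = m := by omega
          rw [h4] at h2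
          exact hDm h2
      intro y hy
      exact h1 hy
    have hEN : E ≤ N := by
      refine esup_le Dj fun i _ y hy => ?_
      obtain ⟨y', hy', rfl⟩ := (hDjmem i y).mp hy
      exact hNn.conj_mem y' (hTN (hD'T hy')) _
    have hfin := const_move' hθ E hEs z hzE (fun d hd => hN1 d (hEN hd)) d (hD0 ⟨d, hd, rfl⟩)
    change θ (x * ((v * d : T₀) : Q)) = θ (x * v)
    rw [Subgroup.coe_mul, ← mul_assoc]
    exact hfin
  · -- M2
    intro v w
    have hseq : ∀ j, j + 1 ≤ m → ∃ u : Q, ∃ c ∈ C, u = w * c ∧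
        x⁻¹ * u * x = c * ((x ^ (j + 1))⁻¹ * w * x ^ (j + 1)) := by
      intro j
      induction j with
      | zero =>
        intro _
        exact ⟨w, 1, one_mem _, by simp, by simp⟩
      | succ j ih =>
        intro hj
        obtain ⟨u, c, hc, hu, hux⟩ := ih (by omega)
        refine ⟨u * ((x ^ (j + 1))⁻¹ * w * x ^ (j + 1)), c * ((x ^ (j + 1))⁻¹ * w * x ^ (j + 1)),
          mul_mem hc ?_, by rw [hu, mul_assoc], ?_⟩
        · rw [hCmem]
          intro s hs
          exact hcomm' (j + 1) (by omega) (by omega) w w.2 s hs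
        · have h1 : x⁻¹ * (u * ((x ^ (j + 1))⁻¹ * w * x ^ (j + 1))) * x
              = (x⁻¹ * u * x) * ((x ^ (j + 1) * x)⁻¹ * w * (x ^ (j + 1) * x)) := by group
          rw [h1, hux, ← pow_succ]
    obtain ⟨u, c, hc, hu, hux⟩ := hseq (m - 1) (by omega)
    rw [Nat.sub_add_cancel hmpos] at hux
    change θ (x * ((β⁻¹ w * v * w⁻¹ : T₀) : Q)) = θ (x * v)
    rw [← hθ.conj (x * v) u]
    congr 1
    have h1 : u * (x * v) * u⁻¹ = x * (x⁻¹ * u * x) * v * u⁻¹ := by group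
    have h2 := (hCmem c).mp hc (β⁻¹ w * v : T₀) (β⁻¹ w * v : T₀).2
    rw [Subgroup.coe_mul, hβi] at h2
    rw [h1, hux, hu, Subgroup.coe_mul, Subgroup.coe_mul, hβi, Subgroup.coe_inv]
    have h3 : x * (c * ((x ^ m)⁻¹ * w * x ^ m)) * v * (w * c)⁻¹
        = x * (c * ((x ^ m)⁻¹ * w * x ^ m * v)) * c⁻¹ * (w : Q)⁻¹ := by group
    rw [h3, ← h2]
    group


end orbit

end Pool.Agent.H302R9
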