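import Pool.Agent.H302R9.Orbit

/-!
# Weak Heilbronn functions: products of simple groups
-/

set_option autoImplicit false
set_option linter.unusedSectionVars false

namespace Pool.Agent.H302R9

open Pool.Agent.H302R2 Pool.Agent.H302R3 Pool.Agent.H302R5 Pool.Agent.H302R6 Pool.Agent.H302R7

universe u w v

section prod

variable {Q : Type u} [Group Q] [Finite Q] {θ : Q → ℂ}
variable {ι : Type w} [Finite ι] [DecidableEq ι] {T : ι → Type v} [∀ i, Group (T i)]
  [∀ i, Finite (T i)]

theorem prod_const' (hθ : IsSolHeilbronn θ) (φ : (∀ i, T i) →* Q) (hφ : Function.Injective φ)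
    (hN : φ.range.Normal) (hsimp : ∀ i, IsSimpleGroup (T i))
    (hZ : ∀ i, ∀ t : T i, (∀ s : T i, s * t = t * s) → t = 1)
    (hOut : ∀ i, ∃ p : ℕ, p.Prime ∧
      ∀ β : MulAut (T i), ∃ (k : ℕ) (s : T i), β ^ (p ^ k) = MulAut.conj s)
    (hrig : ∀ i, ∀ t : T i, θ (φ (Pi.mulSingle i t)) = θ 1) (x : Q) (y : ∀ i, T i) :
    θ (x * φ y) = θ x := by
  set N := φ.range with hNdef
  have hN1 : ∀ n ∈ N, θ n = θ 1 := by
    rintro _ ⟨y, rfl⟩
    refine pi_induct (fun y => θ (φ y) = θ 1) (by simp) (fun y j hy => ?_) y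
    rw [update_mul_single y j, map_mul, hθ.mul_of_comm _ (hrig j (y j))]
    · exact hy
    · rw [← map_mul, ← map_mul, update_comm_single]
  have hone : ∀ (j : ι) (x : Q) (t : T j), θ (x * φ (Pi.mulSingle j t)) = θ x := by
    intro j x t
    let ψ : T j →* Q := φ.comp (MonoidHom.mulSingle T j)
    have hψ : Function.Injective ψ := hφ.comp (Pi.mulSingle_injective j)
    let T₀ : Subgroup Q := ψ.range
    let e : T j ≃* T₀ := MonoidHom.ofInjective hψ
    have he : ∀ t, ((e t : T₀) : Q) = φ (Pi.mulSingle j t) := fun t => rfl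
    have hTN : T₀ ≤ N := by
      rintro _ ⟨t, rfl⟩
      exact ⟨_, rfl⟩
    have hTnorm : ∀ n ∈ N, ∀ t ∈ T₀, n * t * n⁻¹ ∈ T₀ := by
      rintro _ ⟨y, rfl⟩ _ ⟨t, rfl⟩
      refine ⟨y j * t * (y j)⁻¹, ?_⟩
      change φ (Pi.mulSingle j (y j * t * (y j)⁻¹)) = φ y * φ (Pi.mulSingle j t) * (φ y)⁻¹
      rw [← map_inv, ← map_mul, ← map_mul]
      congr 1
      funext i
      by_cases h : i = j
      · subst h; simp
      · simp only [Pi.mul_apply, Pi.inv_apply, Pi.mulSingle_eq_of_ne h, mul_one, mul_inv_cancel]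
    have hs : IsSimpleGroup T₀ := by
      have := hsimp j
      have : Nontrivial T₀ := e.symm.toEquiv.nontrivial
      exact IsSimpleGroup.isSimpleGroup_of_surjective e.toMonoidHom e.surjective
    have hZ0 : ∀ t : T₀, (∀ s : T₀, s * t = t * s) → t = 1 := by
      intro t ht
      have h1 : e.symm t = 1 := by
        apply hZ j
        intro s
        have := congrArg e.symm (ht (e s))
        simpa using this
      rw [← e.apply_symm_apply t, h1, map_one]
    obtain ⟨p, hp, hOj⟩ := hOut j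
    have hO : ∀ β : MulAut T₀, ∃ (k : ℕ) (s : T₀), β ^ (p ^ k) = MulAut.conj s := by
      intro β
      obtain ⟨k, s, hks⟩ := hOj ((MulAut.congr e).symm β)
      refine ⟨k, e s, ?_⟩
      have h1 := congrArg (MulAut.congr e) hks
      rw [map_pow, MulEquiv.apply_symm_apply] at h1
      rw [h1]
      ext y
      change ((e (s * (e.symm y) * s⁻¹) : T₀) : Q) = ((e s * y * (e s)⁻¹ : T₀) : Q)
      rw [map_mul, map_mul, map_inv, MulEquiv.apply_symm_apply]
    exact orbit_const' hθ N T₀ hTN hTnorm hZ0 hp hO hN1 x _ ⟨t, rfl⟩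
  refine pi_induct (fun y => θ (x * φ y) = θ x) (by simp) (fun y j hy => ?_) y
  rw [update_mul_single y j, map_mul, ← mul_assoc, hone]
  exact hy

end prod

end Pool.Agent.H302R9
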